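import Pool.Agent.W418.LU2.LinSys

/-!
# The equations of fields generated by subspaces
-/

set_option autoImplicit false
set_option linter.unusedVariables false
set_option linter.unusedSectionVars false

universe u v

namespace Pool.Agent.W418.LU2

open IsLocalRing Pool.Agent.W418.Lin

/-- The degree modulo `p` of a product of `d s` elements of the `s`-th subspace for all `s` and of
the powers `f l ^ e l`, where `f l` has the degree `deg l`. -/
def dg2 {p n r : ℕ} (deg : Fin r → Fin n → ZMod p) (d : Fin n → ℕ) (e : Fin r → ℕ) :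
    Fin n → ZMod p :=
  fun s => d s + ∑ l, e l * deg l s

section coords

variable {E K : Type u} [Field E] [Field K] [Algebra E K] {n : ℕ} (V : Fin n → Submodule E K)
  [∀ s, FiniteDimensional E (V s)]

/-- Coordinates of the elements of the subspaces. -/
theorem exists_coords2 : ∃ (blk : Fin (∑ s, Module.finrank E (V s)) → Fin n)
    (x : Fin (∑ s, Module.finrank E (V s)) → K), (∀ i, x i ∈ V (blk i)) ∧ (∀ i, x i ≠ 0) ∧
    ∀ s, ∀ y ∈ V s, ∃ v : Fin (∑ s, Module.finrank E (V s)) → E,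
      (∀ i, v i ≠ 0 → blk i = s) ∧ ∑ i, algebraMap E K (v i) * x i = y := by
  classical
  have hc : Fintype.card (Σ s : Fin n, Fin (Module.finrank E (V s))) =
      ∑ s, Module.finrank E (V s) := by
    rw [Fintype.card_sigma]
    simp
  let q : (Σ s : Fin n, Fin (Module.finrank E (V s))) ≃ Fin (∑ s, Module.finrank E (V s)) :=
    Fintype.equivFinOfCardEq hc
  let bas := fun s => Module.finBasis E (V s)
  refine ⟨fun i => (q.symm i).1, fun i => (bas (q.symm i).1 (q.symm i).2 : K),
    fun i => Subtype.property _, fun i h => ?_, ?_⟩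
  · exact (bas (q.symm i).1).ne_zero (q.symm i).2 (Subtype.ext h)
  · intro s y hy
    let v' : (Σ s : Fin n, Fin (Module.finrank E (V s))) → E := fun a =>
      if h : a.1 = s then (bas s).repr ⟨y, hy⟩ (h ▸ a.2) else 0
    refine ⟨fun i => v' (q.symm i), ?_, ?_⟩
    · intro i hi
      by_contra h
      exact hi (dif_neg h)
    · have h1 : ∑ i, algebraMap E K (v' (q.symm i)) * (bas (q.symm i).1 (q.symm i).2 : K) =
          ∑ a, algebraMap E K (v' a) * (bas a.1 a.2 : K) :=
        Equiv.sum_comp q.symm fun a => algebraMap E K (v' a) * (bas a.1 a.2 : K)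
      rw [h1, Fintype.sum_sigma, Finset.sum_eq_single s]
      · have h2 : ∀ t, v' ⟨s, t⟩ = (bas s).repr ⟨y, hy⟩ t := fun t => dif_pos rfl
        simp only [h2]
        have h3 := congrArg Subtype.val ((bas s).sum_repr ⟨y, hy⟩)
        rw [Submodule.coe_sum] at h3
        refine Eq.trans (Finset.sum_congr rfl fun t _ => ?_) h3
        rw [Submodule.coe_smul, Algebra.smul_def]
      · intro s' _ hs'
        refine Finset.sum_eq_zero fun t _ => ?_
        have h2 : v' ⟨s', t⟩ = 0 := dif_neg hs'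
        rw [h2, map_zero, zero_mul]
      · intro h; exact absurd (Finset.mem_univ _) h

end coords

section lci

variable {E K : Type u} [Field E] [Field K] [Algebra E K]

/-- The system of equations of a field which is generated by subspaces. -/
theorem lci_sys (V : ValuationSubring K) {p : ℕ} [hp : Fact p.Prime] {n : ℕ}
    (W : Fin n → Submodule E K) [∀ s, FiniteDimensional E (W s)]
    (hgen : IntermediateField.adjoin E (⋃ s, (W s : Set K)) = ⊤)
    {r : ℕ} (ι : Fin r → Type) [∀ j, Fintype (ι j)] (i₀ : ∀ j, ι j)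
    (c : ∀ j, ι j → E) (hc : ∀ j i, c j i ≠ 0) (d : ∀ j, ι j → Fin n → ℕ)
    (g : ∀ j i s, Fin (d j i s) → K) (hgW : ∀ j i s t, g j i s t ∈ W s)
    (hg0 : ∀ j i s t, g j i s t ≠ 0) (e : ∀ j, ι j → Fin r → ℕ) (f : Fin r → K)
    (he : ∀ j i l, e j i l ≠ 0 → l < j ∧ f l ≠ 0)
    (hf : ∀ j, f j = ∑ i, algebraMap E K (c j i) * ((∏ s, ∏ t, g j i s t) * ∏ l, f l ^ e j i l))
    (deg : Fin r → Fin n → ZMod p) (hdeg : ∀ j, deg j = dg2 deg (d j (i₀ j)) (e j (i₀ j)))
    (hind : LinearIndependent (ZMod p) fun q : (j : Fin r) × {i : ι j // i ≠ i₀ j} =>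
      dg2 deg (d q.1 q.2) (e q.1 q.2) - deg q.1)
    (htr : Algebra.trdeg E K + (Nat.card {j // f j = 0} : Cardinal.{u}) =
      ((∑ s, Module.finrank E (W s) : ℕ) : Cardinal.{u}))
    {cU : ℕ} (u : Fin cU → K) (ub : Fin cU → Fin n) (hu : ∀ q, u q ∈ W (ub q))
    (hu0 : ∀ q, u q ≠ 0) :
    ∃ (Θ : Type) (_ : Fintype Θ) (y : Θ → K), (∀ θ, y θ ≠ 0) ∧ (∀ q, ∃ θ, y θ = u q) ∧
      (∀ l, f l ≠ 0 → ∃ θ, y θ = f l) ∧ (∀ θ, (∃ s, y θ ∈ W s) ∨ ∃ l, y θ = f l) ∧
      (∀ z : K, ∃ a b : MvPolynomial Θ E, ph (E := E) y b ≠ 0 ∧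
        z * ph (E := E) y b = ph (E := E) y a) ∧
      ∃ (Hc : Set E) (𝒮 : Sys E Θ), Hc.Finite ∧ (∀ h ∈ Hc, h ≠ 0) ∧ 𝒮.Ok y V p ∧
      (∀ {ι' : Type} [Fintype ι'] (P : Subring E) (z : ι' → E), (∀ i, z i ≠ 0) →
        (∀ h ∈ Hc, PMon P z h) → ∀ k i, PMon P z (𝒮.c k i)) ∧
      Algebra.trdeg E K + (Fintype.card 𝒮.κ : Cardinal.{u}) = Fintype.card Θ := by
  classical
  obtain ⟨blk, x, hxW, hx0, hco⟩ := exists_coords2 W
  generalize hN : (∑ s, Module.finrank E (W s)) = N at blk x hxW hx0 hco htr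
  -- the linear forms
  let Λ : Type := (Σ ji : (Σ j, ι j), Σ s : Fin n, Fin (d ji.1 ji.2 s)) ⊕ (Fin cU ⊕ Fin N)
  let LV : Λ → K := Sum.elim (fun q => g q.1.1 q.1.2 q.2.1 q.2.2) (Sum.elim u x)
  let LB : Λ → Fin n := Sum.elim (fun q => q.2.1) (Sum.elim ub blk)
  have hLV : ∀ q, LV q ∈ W (LB q) := by
    rintro (q | q | q)
    · exact hgW _ _ _ _
    · exact hu q
    · exact hxW q
  have hLV0 : ∀ q, LV q ≠ 0 := by
    rintro (q | q | q)
    · exact hg0 _ _ _ _
    · exact hu0 q
    · exact hx0 q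
  choose v0 hv0b hv0 using fun q => hco (LB q) (LV q) (hLV q)
  let v : Λ → Fin N → E := fun q => Sum.elim (fun q => v0 (Sum.inl q))
    (Sum.elim (fun q => v0 (Sum.inr (Sum.inl q))) fun i => Pi.single i 1) q
  have hvb : ∀ q i, v q i ≠ 0 → blk i = LB q := by
    rintro (q | q | q) i hi
    · exact hv0b _ i hi
    · exact hv0b _ i hi
    · have h1 : i = q := by
        by_contra h
        exact hi (Pi.single_eq_of_ne h 1)
      rw [h1]
      rfl
  have hvs : ∀ q, lf v x q = LV q := by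
    unfold lf
    rintro (q | q | q)
    · exact hv0 _
    · exact hv0 _
    · change ∑ i, algebraMap E K ((Pi.single q 1 : Fin N → E) i) * x i = x q
      rw [Finset.sum_eq_single q]
      · rw [Pi.single_eq_same, map_one, one_mul]
      · intro i _ hi
        rw [Pi.single_eq_of_ne hi, map_zero, zero_mul]
      · intro h; exact absurd (Finset.mem_univ _) h
  have hpl : pl v (fun i => (Sum.inr (Sum.inr i) : Λ)) ≠ 0 := by
    have h1 : (fun i => v (Sum.inr (Sum.inr i))) = (1 : Matrix (Fin N) (Fin N) E) := by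
      funext i j
      change (Pi.single i 1 : Fin N → E) j = _
      rw [Matrix.one_apply]
      by_cases h : i = j
      · rw [h, Pi.single_eq_same, if_pos rfl]
      · rw [if_neg h, Pi.single_eq_of_ne (Ne.symm h)]
    unfold pl
    rw [h1, Matrix.det_one]
    exact one_ne_zero
  -- the exponents
  let a : ∀ j, ι j → Λ → ℕ := fun j i => Sum.elim (fun q => if q.1 = ⟨j, i⟩ then 1 else 0)
    fun _ => 0
  have hprod : ∀ (y : Λ → K) (j : Fin r) (i : ι j),
      ∏ q, y q ^ a j i q = ∏ s, ∏ t : Fin (d j i s), y (Sum.inl ⟨⟨j, i⟩, s, t⟩) := by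
    intro y j i
    rw [Fintype.prod_sum_type]
    have h1 : ∏ q : Fin cU ⊕ Fin N, y (Sum.inr q) ^ a j i (Sum.inr q) = 1 :=
      Finset.prod_eq_one fun q _ => pow_zero _
    rw [h1, mul_one, Fintype.prod_sigma, Finset.prod_eq_single (⟨j, i⟩ : Σ j, ι j)]
    · rw [Fintype.prod_sigma]
      refine Finset.prod_congr rfl fun s _ => Finset.prod_congr rfl fun t _ => ?_
      have h2 : a j i (Sum.inl ⟨⟨j, i⟩, s, t⟩) = 1 := if_pos rfl
      rw [h2, pow_one]
    · intro q _ hq
      refine Finset.prod_eq_one fun t _ => ?_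
      have h2 : a j i (Sum.inl ⟨q, t⟩) = 0 := if_neg hq
      rw [h2, pow_zero]
    · intro h; exact absurd (Finset.mem_univ _) h
  have hw : ∀ j i s, dg2 deg (d j i) (e j i) s = (∑ q, if LB q = s then (a j i q : ZMod p) else 0) +
      ∑ l, (e j i l : ZMod p) * deg l s := by
    intro j i s
    change (d j i s : ZMod p) + ∑ l, (e j i l : ZMod p) * deg l s = _
    congr 1
    rw [Fintype.sum_sum_type]
    have h1 : ∑ q : Fin cU ⊕ Fin N,
        (if LB (Sum.inr q) = s then (a j i (Sum.inr q) : ZMod p) else 0) =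
        0 := Finset.sum_eq_zero fun q _ => by
      have : a j i (Sum.inr q) = 0 := rfl
      rw [this, Nat.cast_zero, ite_self]
    rw [h1, add_zero, Fintype.sum_sigma, Finset.sum_eq_single (⟨j, i⟩ : Σ j, ι j)]
    · rw [Fintype.sum_sigma, Finset.sum_eq_single s]
      · have h2 : ∀ t : Fin (d j i s), (if LB (Sum.inl ⟨⟨j, i⟩, s, t⟩) = s then
            (a j i (Sum.inl ⟨⟨j, i⟩, s, t⟩) : ZMod p) else 0) = 1 := by
          intro t
          have h3 : a j i (Sum.inl ⟨⟨j, i⟩, s, t⟩) = 1 := if_pos rfl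
          rw [h3, Nat.cast_one]
          exact if_pos rfl
        rw [Finset.sum_congr rfl fun t _ => h2 t]
        simp
      · intro s' _ hs'
        refine Finset.sum_eq_zero fun t _ => if_neg ?_
        exact hs'
      · intro h; exact absurd (Finset.mem_univ _) h
    · intro q _ hq
      refine Finset.sum_eq_zero fun t _ => ?_
      have h2 : a j i (Sum.inl ⟨q, t⟩) = 0 := if_neg hq
      rw [h2, Nat.cast_zero, ite_self]
    · intro h; exact absurd (Finset.mem_univ _) h
  obtain ⟨𝒮, hOk, hPM, htr'⟩ := exists_sys V x blk v LB hvb (fun q => by rw [hvs]; exact hLV0 q)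
    ⟨_, hpl⟩ ι i₀ c hc a e f he (by
      intro j
      rw [hf j]
      refine Finset.sum_congr rfl fun i _ => ?_
      congr 2
      have h1 : ∀ q, lf v x q ^ a j i q = LV q ^ a j i q := fun q => by rw [hvs]
      rw [Finset.prod_congr rfl fun q _ => h1 q, hprod LV j i]
      rfl) deg (fun j i => dg2 deg (d j i) (e j i)) hw hdeg hind htr
  refine ⟨Λ ⊕ {l : Fin r // f l ≠ 0}, inferInstance, Sum.elim (lf v x) (fun l => f l), ?_, ?_, ?_,
    ?_, ?_, (Set.range fun q : Σ j, ι j => c q.1 q.2) ∪ ((fun s => pl v s) '' {s | pl v s ≠ 0}), 𝒮,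
    ?_, ?_, hOk, ?_, htr'⟩
  · rintro (q | l)
    · change lf v x q ≠ 0
      rw [hvs]
      exact hLV0 q
    · exact l.2
  · intro q
    exact ⟨Sum.inl (Sum.inr (Sum.inl q)), hvs _⟩
  · intro l hl
    exact ⟨Sum.inr ⟨l, hl⟩, rfl⟩
  · rintro (q | l)
    · left
      refine ⟨LB q, ?_⟩
      change lf v x q ∈ _
      rw [hvs]
      exact hLV q
    · exact Or.inr ⟨l, rfl⟩
  · -- the field of fractions
    have h3 : ∀ z ∈ IntermediateField.adjoin E (⋃ s, (W s : Set K)),
        ∃ a b : MvPolynomial (Λ ⊕ {l : Fin r // f l ≠ 0}) E,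
          ph (E := E) (Sum.elim (lf v x) (fun l : {l : Fin r // f l ≠ 0} => f l)) b ≠ 0 ∧
          z * ph (E := E) (Sum.elim (lf v x) (fun l : {l : Fin r // f l ≠ 0} => f l)) b =
            ph (E := E) (Sum.elim (lf v x) (fun l : {l : Fin r // f l ≠ 0} => f l)) a := by
      intro z hz
      have hone : ph (E := E) (Sum.elim (lf v x) (fun l : {l : Fin r // f l ≠ 0} => f l)) 1 ≠ 0 := by
        rw [map_one]
        exact one_ne_zero
      induction hz using IntermediateField.adjoin_induction with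
      | mem z hz =>
        obtain ⟨s, hs⟩ := Set.mem_iUnion.1 hz
        obtain ⟨v', -, hv'⟩ := hco s z hs
        refine ⟨∑ i, MvPolynomial.C (v' i) * MvPolynomial.X (Sum.inl (Sum.inr (Sum.inr i))), 1,
          hone, ?_⟩
        rw [map_one, mul_one, map_sum, ← hv']
        refine Finset.sum_congr rfl fun i _ => ?_
        rw [map_mul]
        change _ = MvPolynomial.aeval _ (MvPolynomial.C (v' i)) *
          MvPolynomial.aeval _ (MvPolynomial.X _)
        rw [MvPolynomial.aeval_C, MvPolynomial.aeval_X]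
        change _ = _ * lf v x (Sum.inr (Sum.inr i))
        rw [hvs]
        rfl
      | algebraMap b =>
        refine ⟨MvPolynomial.C b, 1, hone, ?_⟩
        rw [map_one, mul_one]
        exact (MvPolynomial.aeval_C _ _).symm
      | add y z _ _ hy hz =>
        obtain ⟨a, b, hb, h4⟩ := hy
        obtain ⟨a', b', hb', h5⟩ := hz
        refine ⟨a * b' + a' * b, b * b', by rw [map_mul]; exact mul_ne_zero hb hb', ?_⟩
        rw [map_add, map_mul, map_mul, map_mul, ← h4, ← h5]
        ring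
      | mul y z _ _ hy hz =>
        obtain ⟨a, b, hb, h4⟩ := hy
        obtain ⟨a', b', hb', h5⟩ := hz
        refine ⟨a * a', b * b', by rw [map_mul]; exact mul_ne_zero hb hb', ?_⟩
        rw [map_mul, map_mul, ← h4, ← h5]
        ring
      | inv y _ hy =>
        obtain ⟨a, b, hb, h4⟩ := hy
        by_cases h5 : y = 0
        · refine ⟨0, 1, hone, ?_⟩
          rw [h5, inv_zero, zero_mul, map_zero]
        · refine ⟨b, a, ?_, ?_⟩
          · rw [← h4]
            exact mul_ne_zero h5 hb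
          · rw [← h4, inv_mul_cancel_left₀ h5]
    intro z
    exact h3 z (by rw [hgen]; trivial)
  · exact (Set.finite_range _).union (Set.toFinite _)
  · rintro h (⟨q, rfl⟩ | ⟨s, hs, rfl⟩)
    · exact hc _ _
    · exact hs
  · intro ι' _ P z hz hH
    refine hPM P z hz (fun j i => hH _ (Or.inl ⟨⟨j, i⟩, rfl⟩)) fun s hs => hH _ (Or.inr ⟨s, hs, rfl⟩)

end lci

end Pool.Agent.W418.LU2
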