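import Pool.Agent.W418.LU2.Data
import Pool.Agent.W418.LU2.Ded

/-!
# Ascent of log uniformization
-/

set_option autoImplicit false
set_option linter.unusedVariables false
set_option linter.unusedSectionVars false

universe u v

namespace Pool.Agent.W418.LU2

open IsLocalRing

section mon

variable {E K : Type u} [Field E] [Field K] [Algebra E K] {n r : ℕ}

/-- The multiplicative group generated by the nonzero elements of `E`, of the subspaces `W s` and by
the nonzero elements `f l`. -/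
def monomials (W : Fin n → Submodule E K) (f : Fin r → K) : Subgroup Kˣ :=
  Subgroup.closure {u | (u : K) ∈ Set.range (algebraMap E K) ∨ (∃ s, (u : K) ∈ W s) ∨
    ∃ l, (u : K) = f l}

/-- The element is a monomial. -/
def IsMonomial (W : Fin n → Submodule E K) (f : Fin r → K) (z : K) : Prop :=
  ∃ u ∈ monomials W f, (u : K) = z

variable {W : Fin n → Submodule E K} {f : Fin r → K}

lemma IsMonomial.ne {z : K} (h : IsMonomial W f z) : z ≠ 0 := by
  obtain ⟨u, -, rfl⟩ := h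
  exact u.ne_zero

lemma IsMonomial.mul {z z' : K} (h : IsMonomial W f z) (h' : IsMonomial W f z') :
    IsMonomial W f (z * z') := by
  obtain ⟨u, hu, rfl⟩ := h
  obtain ⟨u', hu', rfl⟩ := h'
  exact ⟨u * u', mul_mem hu hu', Units.val_mul _ _⟩

lemma IsMonomial.inv {z : K} (h : IsMonomial W f z) : IsMonomial W f z⁻¹ := by
  obtain ⟨u, hu, rfl⟩ := h
  exact ⟨u⁻¹, inv_mem hu, Units.val_inv_eq_inv_val _⟩

lemma IsMonomial.one : IsMonomial W f 1 := ⟨1, one_mem _, rfl⟩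

lemma IsMonomial.alg {e : E} (he : e ≠ 0) : IsMonomial W f (algebraMap E K e) :=
  ⟨Units.mk0 _ ((map_ne_zero (algebraMap E K)).2 he),
    Subgroup.subset_closure (Or.inl ⟨e, rfl⟩), rfl⟩

lemma IsMonomial.sub {w : K} {s : Fin n} (hw : w ∈ W s) (h0 : w ≠ 0) : IsMonomial W f w :=
  ⟨Units.mk0 _ h0, Subgroup.subset_closure (Or.inr (Or.inl ⟨s, hw⟩)), rfl⟩

lemma IsMonomial.fl {l : Fin r} (h0 : f l ≠ 0) : IsMonomial W f (f l) :=
  ⟨Units.mk0 _ h0, Subgroup.subset_closure (Or.inr (Or.inr ⟨l, rfl⟩)), rfl⟩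

/-- Presentations of monomials. -/
def Rep (f : Fin r → K) (e : E) (U : Finset K) (z : K) : Prop :=
  ∃ (m : K → ℤ) (k : Fin r → ℤ), (∀ l, f l = 0 → k l = 0) ∧
    z = algebraMap E K e * ((∏ u ∈ U, u ^ m u) * ∏ l, f l ^ k l)

lemma Rep.mono {e : E} {U U' : Finset K} {z : K} (h : Rep f e U z) (hU : U ⊆ U') :
    Rep f e U' z := by
  classical
  obtain ⟨m, k, hk, rfl⟩ := h
  refine ⟨fun u => if u ∈ U then m u else 0, k, hk, ?_⟩
  congr 2
  refine (Finset.prod_congr rfl fun u hu => ?_).trans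
    (Finset.prod_subset hU fun u _ hu => ?_)
  · change u ^ m u = u ^ (if u ∈ U then m u else 0)
    rw [if_pos hu]
  · change u ^ (if u ∈ U then m u else 0) = 1
    rw [if_neg hu, zpow_zero]

lemma Rep.mul {e e' : E} {U : Finset K} (hU : ∀ u ∈ U, u ≠ 0) {z z' : K} (h : Rep f e U z)
    (h' : Rep f e' U z') : Rep f (e * e') U (z * z') := by
  obtain ⟨m, k, hk, rfl⟩ := h
  obtain ⟨m', k', hk', rfl⟩ := h'
  refine ⟨m + m', k + k', fun l hl => by rw [Pi.add_apply, hk l hl, hk' l hl, add_zero], ?_⟩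
  have h1 : ∏ u ∈ U, u ^ (m + m') u = (∏ u ∈ U, u ^ m u) * ∏ u ∈ U, u ^ m' u := by
    rw [← Finset.prod_mul_distrib]
    exact Finset.prod_congr rfl fun u hu => zpow_add₀ (hU u hu) _ _
  have h2 : ∏ l, f l ^ (k + k') l = (∏ l, f l ^ k l) * ∏ l, f l ^ k' l := by
    rw [← Finset.prod_mul_distrib]
    refine Finset.prod_congr rfl fun l _ => ?_
    by_cases hl : f l = 0
    · rw [Pi.add_apply, hk l hl, hk' l hl, add_zero, zpow_zero, mul_one]
    · exact zpow_add₀ hl _ _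
  rw [h1, h2, map_mul]
  ring

lemma Rep.inv {e : E} {U : Finset K} {z : K} (h : Rep f e U z) : Rep f e⁻¹ U z⁻¹ := by
  obtain ⟨m, k, hk, rfl⟩ := h
  refine ⟨-m, -k, fun l hl => by rw [Pi.neg_apply, hk l hl, neg_zero], ?_⟩
  rw [mul_inv, mul_inv, map_inv₀, ← Finset.prod_inv_distrib, ← Finset.prod_inv_distrib]
  congr 2
  · exact Finset.prod_congr rfl fun u _ => (zpow_neg _ _).symm
  · exact Finset.prod_congr rfl fun u _ => (zpow_neg _ _).symm

lemma exists_rep {z : K} (h : IsMonomial W f z) : ∃ (e : E) (U : Finset K), e ≠ 0 ∧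
    (∀ u ∈ U, u ≠ 0 ∧ ∃ s, u ∈ W s) ∧ Rep f e U z := by
  classical
  obtain ⟨u, hu, rfl⟩ := h
  unfold monomials at hu
  induction hu using Subgroup.closure_induction with
  | mem u hu =>
    rcases hu with ⟨e, he⟩ | ⟨s, hs⟩ | ⟨l, hl⟩
    · refine ⟨e, ∅, ?_, fun u hu => absurd hu (Finset.notMem_empty _), 0, 0, fun _ _ => rfl, ?_⟩
      · rintro rfl
        rw [map_zero] at he
        exact u.ne_zero he.symm
      · rw [← he]
        simp
    · refine ⟨1, {(u : K)}, one_ne_zero, fun v hv => ?_, 1, 0, fun _ _ => rfl, ?_⟩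
      · rw [Finset.mem_singleton.1 hv]
        exact ⟨u.ne_zero, s, hs⟩
      · simp
    · refine ⟨1, ∅, one_ne_zero, fun u hu => absurd hu (Finset.notMem_empty _), 0,
        Pi.single l 1, fun l' hl' => ?_, ?_⟩
      · apply Pi.single_eq_of_ne
        rintro rfl
        rw [hl'] at hl
        exact u.ne_zero hl
      · rw [Finset.prod_empty, one_mul, map_one, one_mul, Finset.prod_eq_single l,
          Pi.single_eq_same, zpow_one, hl]
        · intro l' _ hl'
          rw [Pi.single_eq_of_ne hl', zpow_zero]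
        · intro h; exact absurd (Finset.mem_univ _) h
  | one =>
    exact ⟨1, ∅, one_ne_zero, fun u hu => absurd hu (Finset.notMem_empty _), 0, 0,
      fun _ _ => rfl, by simp⟩
  | mul u v _ _ hu hv =>
    obtain ⟨e, U, he, hU, h⟩ := hu
    obtain ⟨e', U', he', hU', h'⟩ := hv
    have hUU : ∀ u ∈ U ∪ U', u ≠ 0 ∧ ∃ s, u ∈ W s := by
      intro u hu
      rcases Finset.mem_union.1 hu with hu | hu
      · exact hU u hu
      · exact hU' u hu
    refine ⟨e * e', U ∪ U', mul_ne_zero he he', hUU, ?_⟩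
    rw [Units.val_mul]
    exact (h.mono Finset.subset_union_left).mul (fun u hu => (hUU u hu).1)
      (h'.mono Finset.subset_union_right)
  | inv u _ hu =>
    obtain ⟨e, U, he, hU, h⟩ := hu
    refine ⟨e⁻¹, U, inv_ne_zero he, hU, ?_⟩
    rw [Units.val_inv_eq_inv_val]
    exact h.inv

/-- Presentations in terms of a family. -/
lemma Rep.mo {Θ : Type} [Fintype Θ] {y : Θ → K} (hy : ∀ θ, y θ ≠ 0) {e : E} {U : Finset K} {z : K}
    (hU : ∀ u ∈ U, ∃ θ, y θ = u) (hf : ∀ l, f l ≠ 0 → ∃ θ, y θ = f l) (h : Rep f e U z) :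
    ∃ m, z = algebraMap E K e * mo y m := by
  classical
  obtain ⟨m, k, hk, rfl⟩ := h
  have hmul : ∀ a b : K, (∃ m, a = LU2.mo y m) → (∃ m, b = LU2.mo y m) →
      ∃ m, a * b = LU2.mo y m := by
    rintro _ _ ⟨m, rfl⟩ ⟨m', rfl⟩
    exact ⟨m + m', (mo_add hy _ _).symm⟩
  have hpow : ∀ (a : K) (n : ℕ), (∃ m, a = LU2.mo y m) → ∃ m, a ^ n = LU2.mo y m := by
    intro a n ha
    induction n with
    | zero => exact ⟨0, by rw [pow_zero, mo_zero]⟩
    | succ n ih => rw [pow_succ]; exact hmul _ _ ih ha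
  have hzpow : ∀ (a : K) (n : ℤ), (∃ m, a = LU2.mo y m) → ∃ m, a ^ n = LU2.mo y m := by
    intro a n ha
    rcases Int.eq_nat_or_neg n with ⟨n', rfl | rfl⟩
    · rw [zpow_natCast]; exact hpow a n' ha
    · rw [zpow_neg, zpow_natCast]
      obtain ⟨m, hm⟩ := hpow a n' ha
      exact ⟨-m, by rw [hm, mo_neg]⟩
  have hprod : ∀ {κ : Type u} (s : Finset κ) (a : κ → K), (∀ i ∈ s, ∃ m, a i = LU2.mo y m) →
      ∃ m, ∏ i ∈ s, a i = LU2.mo y m := by
    intro κ s a ha
    induction s using Finset.induction_on with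
    | empty => exact ⟨0, by rw [Finset.prod_empty, mo_zero]⟩
    | insert i s hi ih =>
      rw [Finset.prod_insert hi]
      exact hmul _ _ (ha i (Finset.mem_insert_self _ _))
        (ih fun j hj => ha j (Finset.mem_insert_of_mem hj))
  have hprod' : ∀ {κ : Type} (s : Finset κ) (a : κ → K), (∀ i ∈ s, ∃ m, a i = LU2.mo y m) →
      ∃ m, ∏ i ∈ s, a i = LU2.mo y m := by
    intro κ s a ha
    induction s using Finset.induction_on with
    | empty => exact ⟨0, by rw [Finset.prod_empty, mo_zero]⟩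
    | insert i s hi ih =>
      rw [Finset.prod_insert hi]
      exact hmul _ _ (ha i (Finset.mem_insert_self _ _))
        (ih fun j hj => ha j (Finset.mem_insert_of_mem hj))
  obtain ⟨m', hm'⟩ := hmul _ _ (hprod U (fun u => u ^ m u) fun u hu => hzpow _ _ (by
    obtain ⟨θ, hθ⟩ := hU u hu
    exact ⟨Pi.single θ 1, by rw [mo_single, hθ]⟩)) (hprod' Finset.univ (fun l => f l ^ k l)
    fun l _ => by
      by_cases hl : f l = 0
      · exact ⟨0, by rw [hk l hl, zpow_zero, mo_zero]⟩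
      · obtain ⟨θ, hθ⟩ := hf l hl
        exact hzpow _ _ ⟨Pi.single θ 1, by rw [mo_single, hθ]⟩)
  exact ⟨m', by rw [← hm']⟩

end mon

section main

variable {E K : Type u} [Field E] [Field K] [Algebra E K]

/-- The ideal is generated by finitely many monomials. -/
def IsMonomialIdeal {n r : ℕ} (W : Fin n → Submodule E K) (f : Fin r → K) {A : Subring K}
    (I : Ideal A) : Prop :=
  I ≠ ⊥ ∧ ∃ S : Set A, S.Finite ∧ (∀ a ∈ S, (a : K) ≠ 0 → IsMonomial W f a) ∧ I = Ideal.span S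

/-- The ascent of log uniformization. -/
theorem ascent (V : ValuationSubring K) {p : ℕ} [hp : Fact p.Prime]
    (hpV : V.valuation (p : K) < 1) (R : Subring E) [IsNoetherianRing R]
    (hfr : ∀ z : E, ∃ a ∈ R, ∃ b ∈ R, b ≠ 0 ∧ z = a * b⁻¹)
    (hRV : ∀ a ∈ R, algebraMap E K a ∈ V)
    (hLU : LogUnif (V.comap (algebraMap E K)) R) {n : ℕ}
    (W : Fin n → Submodule E K) [∀ s, FiniteDimensional E (W s)]
    (hgen : IntermediateField.adjoin E (⋃ s, (W s : Set K)) = ⊤)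
    {r : ℕ} (ι : Fin r → Type) [∀ j, Fintype (ι j)] (i₀ : ∀ j, ι j)
    (c : ∀ j, ι j → E) (hc : ∀ j i, c j i ≠ 0) (d : ∀ j, ι j → Fin n → ℕ)
    (g : ∀ j i s, Fin (d j i s) → K) (hgW : ∀ j i s t, g j i s t ∈ W s)
    (hg0 : ∀ j i s t, g j i s t ≠ 0) (e : ∀ j, ι j → Fin r → ℕ) (f : Fin r → K)
    (he : ∀ j i l, e j i l ≠ 0 → l < j ∧ f l ≠ 0)
    (hf : ∀ j, f j = ∑ i, algebraMap E K (c j i) * ((∏ s, ∏ t, g j i s t) * ∏ l, f l ^ e j i l))
    (deg : Fin r → Fin n → ZMod p) (hdeg : ∀ j, deg j = dg2 deg (d j (i₀ j)) (e j (i₀ j)))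
    (hind : LinearIndependent (ZMod p) fun q : (j : Fin r) × {i : ι j // i ≠ i₀ j} =>
      dg2 deg (d q.1 q.2) (e q.1 q.2) - deg q.1)
    (htr : Algebra.trdeg E K + (Nat.card {j // f j = 0} : Cardinal.{u}) =
      ((∑ s, Module.finrank E (W s) : ℕ) : Cardinal.{u}))
    (A : Subring K) (Gen : Set K) (hGenf : Gen.Finite) (hGen : ∀ z ∈ Gen, IsMonomial W f z)
    (hA : A = Subring.closure ((R.map (algebraMap E K) : Set K) ∪ Gen)) (hAV : A ≤ V.toSubring)
    (hWA : ∀ s, ∀ y ∈ W s, ∃ b ∈ R, b ≠ 0 ∧ algebraMap E K b * y ∈ A)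
    (D I₀ : Ideal A) (hD : IsMonomialIdeal W f D) (hI₀ : IsMonomialIdeal W f I₀) :
    ∃ I₁ : Ideal A, IsMonomialIdeal W f I₁ ∧ LogDesing V A D (I₀ * I₁) := by
  classical
  obtain ⟨hD0, SD, hSDf, hSDm, hSD⟩ := hD
  obtain ⟨hI0, SI, hSIf, hSIm, hSI⟩ := hI₀
  obtain ⟨d₀, hd₀S, hd₀0, hd₀⟩ := exists_gen V hAV hSDf (by rw [← hSD]; exact hD0)
  obtain ⟨f₀, hf₀S, hf₀0, hf₀⟩ := exists_gen V hAV hSIf (by rw [← hSI]; exact hI0)
  rw [← hSD] at hd₀
  rw [← hSI] at hf₀
  have hd₀0' : (d₀ : K) ≠ 0 := fun h => hd₀0 (Subtype.ext h)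
  have hf₀0' : (f₀ : K) ≠ 0 := fun h => hf₀0 (Subtype.ext h)
  have hd₀m := hSDm d₀ hd₀S hd₀0'
  have hf₀m := hSIm f₀ hf₀S hf₀0'
  have hRA : ∀ a ∈ R, algebraMap E K a ∈ A := by
    intro a ha
    rw [hA]
    exact Subring.subset_closure (Or.inl ⟨a, ha, rfl⟩)
  have hGenA : ∀ z ∈ Gen, z ∈ A := by
    intro z hz
    rw [hA]
    exact Subring.subset_closure (Or.inr hz)
  -- the monomials
  let Z : Set K := Gen ∪ ((fun a : A => (a : K) / (d₀ : K)) '' {a | a ∈ SD ∧ a ≠ 0}) ∪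
    ((fun a : A => (a : K) / (f₀ : K)) '' {a | a ∈ SI ∧ a ≠ 0}) ∪ {(d₀ : K), (f₀ : K)}
  have hZf : Z.Finite := by
    refine ((hGenf.union ?_).union ?_).union (Set.toFinite _)
    · exact (hSDf.subset fun a ha => ha.1).image _
    · exact (hSIf.subset fun a ha => ha.1).image _
  have hZm : ∀ z ∈ Z, IsMonomial W f z := by
    rintro z (((hz | ⟨a, ha, rfl⟩) | ⟨a, ha, rfl⟩) | hz)
    · exact hGen z hz
    · change IsMonomial W f ((a : K) / (d₀ : K))
      rw [div_eq_mul_inv]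
      exact (hSDm a ha.1 fun h => ha.2 (Subtype.ext h)).mul hd₀m.inv
    · change IsMonomial W f ((a : K) / (f₀ : K))
      rw [div_eq_mul_inv]
      exact (hSIm a ha.1 fun h => ha.2 (Subtype.ext h)).mul hf₀m.inv
    · rcases hz with rfl | hz
      · exact hd₀m
      · rw [Set.mem_singleton_iff.1 hz]
        exact hf₀m
  have hrep := fun z (hz : z ∈ Z) => exists_rep (hZm z hz)
  choose! ez Uz hez0 hUz hrep using hrep
  let Uall : Finset K := hZf.toFinset.biUnion Uz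
  have hUall : ∀ u ∈ Uall, u ≠ 0 ∧ ∃ s, u ∈ W s := by
    intro u hu
    obtain ⟨z, hz, hzu⟩ := Finset.mem_biUnion.1 hu
    exact hUz z (hZf.mem_toFinset.1 hz) u hzu
  let qU := Uall.equivFin
  choose ub hub using fun q : Fin Uall.card => (hUall (qU.symm q) (qU.symm q).2).2
  obtain ⟨Θ, _, y, hy, hyU, hyf, hyW, hyfr, Hc, 𝒮, hHcf, hHc0, hOk, hPM𝒮, htr'⟩ :=
    lci_sys V W hgen ι i₀ c hc d g hgW hg0 e f he hf deg hdeg hind htr
      (fun q => ((qU.symm q : Uall) : K)) ub hub (fun q => (hUall _ (qU.symm q).2).1)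
  have hyU' : ∀ u ∈ Uall, ∃ θ, y θ = u := by
    intro u hu
    obtain ⟨θ, hθ⟩ := hyU (qU ⟨u, hu⟩)
    refine ⟨θ, ?_⟩
    rw [hθ, Equiv.symm_apply_apply]
  have hmz : ∀ z ∈ Z, ∃ m, z = algebraMap E K (ez z) * mo y m := fun z hz =>
    ((hrep z hz).mono (Finset.subset_biUnion_of_mem Uz (hZf.mem_toFinset.2 hz))).mo hy hyU' hyf
  choose! mz hmz using hmz
  -- the denominators of the coordinates
  let Q : Subring K :=
    { carrier := {z | ∃ b ∈ R, b ≠ 0 ∧ algebraMap E K b * z ∈ A}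
      mul_mem' := by
        rintro z z' ⟨b, hb, hb0, h⟩ ⟨b', hb', hb0', h'⟩
        refine ⟨b * b', R.mul_mem hb hb', mul_ne_zero hb0 hb0', ?_⟩
        rw [map_mul, mul_mul_mul_comm]
        exact A.mul_mem h h'
      one_mem' := ⟨1, R.one_mem, one_ne_zero, by rw [map_one, one_mul]; exact A.one_mem⟩
      add_mem' := by
        rintro z z' ⟨b, hb, hb0, h⟩ ⟨b', hb', hb0', h'⟩
        refine ⟨b * b', R.mul_mem hb hb', mul_ne_zero hb0 hb0', ?_⟩
        have h1 : algebraMap E K (b * b') * (z + z') = algebraMap E K b' *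
            (algebraMap E K b * z) + algebraMap E K b * (algebraMap E K b' * z') := by
          rw [map_mul]; ring
        rw [h1]
        exact A.add_mem (A.mul_mem (hRA _ hb') h) (A.mul_mem (hRA _ hb) h')
      zero_mem' := ⟨1, R.one_mem, one_ne_zero, by rw [mul_zero]; exact A.zero_mem⟩
      neg_mem' := by
        rintro z ⟨b, hb, hb0, h⟩
        refine ⟨b, hb, hb0, ?_⟩
        rw [mul_neg]
        exact A.neg_mem h }
  have hQE : ∀ a : E, algebraMap E K a ∈ Q := by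
    intro a
    obtain ⟨a', ha', b, hb, hb0, rfl⟩ := hfr a
    refine ⟨b, hb, hb0, ?_⟩
    rw [← map_mul, mul_comm a', mul_inv_cancel_left₀ hb0]
    exact hRA _ ha'
  have hQW : ∀ s, ∀ y ∈ W s, y ∈ Q := fun s y hy => hWA s y hy
  have hQf : ∀ (M : ℕ) (j : Fin r), j.val = M → f j ∈ Q := by
    intro M
    induction M using Nat.strong_induction_on with
    | _ M ih =>
      intro j hj
      rw [hf j]
      refine Q.sum_mem fun i _ => Q.mul_mem (hQE _) (Q.mul_mem
        (Q.prod_mem fun s _ => Q.prod_mem fun t _ => hQW s _ (hgW _ _ _ _))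
        (Q.prod_mem fun l _ => ?_))
      by_cases h : e j i l = 0
      · rw [h, pow_zero]; exact Q.one_mem
      · exact Q.pow_mem (ih l.val (by rw [← hj]; exact (he j i l h).1) l rfl) _
  have hQy : ∀ θ, ∃ b ∈ R, b ≠ 0 ∧ algebraMap E K b * y θ ∈ A := by
    intro θ
    rcases hyW θ with ⟨s, hs⟩ | ⟨l, hl⟩
    · exact hWA s _ hs
    · rw [hl]
      exact hQf l.val l rfl
  choose bθ hbR hb0 hbA using hQy
  -- the base
  have hRW : R ≤ (V.comap (algebraMap E K)).toSubring := fun a ha => hRV a ha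
  obtain ⟨Wb, fb, n0, x₀, hWbf, hfbR, hfb0, hWb, hx₀, hreg₀, hfbm, hHm⟩ :=
    base (V.comap (algebraMap E K)) R hRW hfr hLU (Hc ∪ ez '' Z ∪ Set.range bθ)
      ((hHcf.union (hZf.image _)).union (Set.finite_range _)) (by
        rintro h ((hh | ⟨z, hz, rfl⟩) | ⟨θ, rfl⟩)
        · exact hHc0 h hh
        · exact hez0 z hz
        · exact hb0 θ)
  set C := Subring.closure ((R : Set E) ∪ Wb) with hC
  have hCW : C ≤ (V.comap (algebraMap E K)).toSubring := by
    rw [hC, Subring.closure_le]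
    rintro z (hz | hz)
    · exact hRW hz
    · exact (hWb z hz).1
  have hRC : R ≤ C := fun a ha => Subring.subset_closure (Or.inl ha)
  have hCE : ∀ a : E, ∃ b ∈ C, b ≠ 0 ∧ a * b ∈ C := by
    intro a
    obtain ⟨a', ha', b, hb, hb0, rfl⟩ := hfr a
    refine ⟨b, hRC hb, hb0, ?_⟩
    rw [mul_assoc, inv_mul_cancel₀ hb0, mul_one]
    exact hRC ha'
  -- the construction
  obtain ⟨T, κ, _, x, hTf, hTV, hTm, hreg, hPMalg, hPMy, hGV⟩ := main_cut hy hpV hreg₀ hCW hCE 𝒮 hOk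
    (hPM𝒮 _ x₀ hreg₀.ne fun h hh => hHm h (Or.inl (Or.inl hh))) hyfr htr'
    (G := (fun z => (ez z, mz z)) '' Z) (hZf.image _) (by
      rintro _ ⟨z, hz, rfl⟩
      exact hHm _ (Or.inl (Or.inr ⟨z, hz, rfl⟩)))
  set B := Subring.closure (C.map (algebraMap E K) ∪ T) with hB
  set P := lo V.toSubring B with hP
  have hBV : B ≤ V.toSubring := by
    rw [hB, Subring.closure_le]
    rintro w (⟨c, hc, rfl⟩ | hw)
    · exact hCW hc
    · exact hTV w hw
  have hBP : B ≤ P := le_lo _ _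
  have hCP : ∀ c ∈ C, algebraMap E K c ∈ P := fun c hc =>
    hBP (Subring.subset_closure (Or.inl ⟨c, hc, rfl⟩))
  have hTP : ∀ t ∈ T, t ∈ P := fun t ht => hBP (Subring.subset_closure (Or.inr ht))
  -- the monomials
  have hZP : ∀ z ∈ Z, z ∈ V → z ∈ P := by
    intro z hz hzV
    have h1 := hGV (ez z, mz z) ⟨z, hz, rfl⟩
    simp only [← hmz z hz] at h1
    exact h1 hzV
  have hZPM : ∀ z ∈ Z, PMon P x z := by
    intro z hz
    rw [hmz z hz]
    exact (hPMalg _ (hHm _ (Or.inl (Or.inr ⟨z, hz, rfl⟩)))).mul hreg.ne (PMon.mo hreg.ne hPMy _)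
  have hAP : A ≤ P := by
    rw [hA, Subring.closure_le]
    rintro z (⟨a, ha, rfl⟩ | hz)
    · exact hCP _ (hRC ha)
    · exact hZP z (Or.inl (Or.inl (Or.inl hz))) (hAV (hGenA z hz))
  have hDP : ∀ a ∈ D, (a : K) / (d₀ : K) ∈ P := by
    intro a ha
    rw [hSD] at ha
    induction ha using Submodule.span_induction with
    | mem a ha =>
      by_cases h0 : a = 0
      · rw [h0]; simp
      · refine hZP _ (Or.inl (Or.inl (Or.inr ⟨a, ⟨ha, h0⟩, rfl⟩))) (hd₀ a ?_)
        rw [hSD]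
        exact Ideal.subset_span ha
    | zero => simp
    | add a b _ _ ha hb =>
      have h1 : ((a + b : A) : K) / (d₀ : K) = (a : K) / (d₀ : K) + (b : K) / (d₀ : K) :=
        add_div _ _ _
      rw [h1]
      exact P.add_mem ha hb
    | smul c a _ ha =>
      have h1 : ((c • a : A) : K) / (d₀ : K) = (c : K) * ((a : K) / (d₀ : K)) :=
        mul_div_assoc _ _ _
      rw [h1]
      exact P.mul_mem (hAP c.2) ha
  have hIP : ∀ a ∈ I₀, (a : K) / (f₀ : K) ∈ P := by
    intro a ha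
    rw [hSI] at ha
    induction ha using Submodule.span_induction with
    | mem a ha =>
      by_cases h0 : a = 0
      · rw [h0]; simp
      · refine hZP _ (Or.inl (Or.inr ⟨a, ⟨ha, h0⟩, rfl⟩)) (hf₀ a ?_)
        rw [hSI]
        exact Ideal.subset_span ha
    | zero => simp
    | add a b _ _ ha hb =>
      have h1 : ((a + b : A) : K) / (f₀ : K) = (a : K) / (f₀ : K) + (b : K) / (f₀ : K) :=
        add_div _ _ _
      rw [h1]
      exact P.add_mem ha hb
    | smul c a _ ha =>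
      have h1 : ((c • a : A) : K) / (f₀ : K) = (c : K) * ((a : K) / (f₀ : K)) :=
        mul_div_assoc _ _ _
      rw [h1]
      exact P.mul_mem (hAP c.2) ha
  -- the fractions
  let Qm : Set K := {α | α ∈ A ∧ IsMonomial W f α ∧ PMon P x α}
  have hQmul : ∀ α ∈ Qm, ∀ β ∈ Qm, α * β ∈ Qm := fun α hα β hβ =>
    ⟨A.mul_mem hα.1 hβ.1, hα.2.1.mul hβ.2.1, hα.2.2.mul hreg.ne hβ.2.2⟩
  have hQone : (1 : K) ∈ Qm := ⟨A.one_mem, IsMonomial.one, PMon.one⟩
  let Fr : Set K := {z | ∃ α ∈ Qm, ∃ β ∈ Qm, z = α * β⁻¹}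
  have hFmul : ∀ z ∈ Fr, ∀ w ∈ Fr, z * w ∈ Fr := by
    rintro _ ⟨α, hα, β, hβ, rfl⟩ _ ⟨α', hα', β', hβ', rfl⟩
    refine ⟨α * α', hQmul _ hα _ hα', β * β', hQmul _ hβ _ hβ', ?_⟩
    rw [mul_inv]
    ring
  have hFinv : ∀ z ∈ Fr, z⁻¹ ∈ Fr := by
    rintro _ ⟨α, hα, β, hβ, rfl⟩
    refine ⟨β, hβ, α, hα, ?_⟩
    rw [mul_inv, inv_inv, mul_comm]
  have hFone : (1 : K) ∈ Fr := ⟨1, hQone, 1, hQone, by simp⟩
  have hFpow : ∀ z ∈ Fr, ∀ n : ℕ, z ^ n ∈ Fr := by
    intro z hz n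
    induction n with
    | zero => rw [pow_zero]; exact hFone
    | succ n ih => rw [pow_succ]; exact hFmul _ ih _ hz
  have hFzpow : ∀ z ∈ Fr, ∀ n : ℤ, z ^ n ∈ Fr := by
    intro z hz n
    rcases Int.eq_nat_or_neg n with ⟨n', rfl | rfl⟩
    · rw [zpow_natCast]; exact hFpow z hz n'
    · rw [zpow_neg, zpow_natCast]; exact hFinv _ (hFpow z hz n')
  have hFmo : ∀ {κ' : Type} [Fintype κ'] (w : κ' → K), (∀ i, w i ∈ Fr) → ∀ m, mo w m ∈ Fr := by
    intro κ' _ w hw m
    unfold mo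
    have h1 : ∀ s : Finset κ', ∏ i ∈ s, w i ^ m i ∈ Fr := by
      intro s
      induction s using Finset.induction_on with
      | empty => rw [Finset.prod_empty]; exact hFone
      | insert i s hi ih =>
        rw [Finset.prod_insert hi]
        exact hFmul _ (hFzpow _ (hw i) _) _ ih
    exact h1 _
  have hFy : ∀ θ, y θ ∈ Fr := by
    intro θ
    have h1 : IsMonomial W f (algebraMap E K (bθ θ)) := IsMonomial.alg (hb0 θ)
    have h2 : IsMonomial W f (y θ) := by
      rcases hyW θ with ⟨s, hs⟩ | ⟨l, hl⟩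
      · exact IsMonomial.sub hs (hy θ)
      · have h3 := hy θ
        rw [hl] at h3 ⊢
        exact IsMonomial.fl h3
    have h3 : PMon P x (algebraMap E K (bθ θ)) := hPMalg _ (hHm _ (Or.inr ⟨θ, rfl⟩))
    refine ⟨algebraMap E K (bθ θ) * y θ, ⟨hbA θ, h1.mul h2, h3.mul hreg.ne (hPMy θ)⟩,
      algebraMap E K (bθ θ), ⟨hRA _ (hbR θ), h1, h3⟩, ?_⟩
    rw [mul_comm, ← mul_assoc, inv_mul_cancel₀ h1.ne, one_mul]
  have hfbQ : algebraMap E K fb ∈ Qm := ⟨hRA _ hfbR, IsMonomial.alg hfb0, hPMalg _ hfbm⟩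
  have hfbpow : ∀ k : ℕ, algebraMap E K (fb ^ k) ∈ Qm := by
    intro k
    induction k with
    | zero => rw [pow_zero, map_one]; exact hQone
    | succ k ih => rw [pow_succ, map_mul]; exact hQmul _ ih _ hfbQ
  have hCfb : ∀ z ∈ C, ∃ k : ℕ, z * fb ^ k ∈ R := by
    intro z hz
    rw [hC] at hz
    induction hz using Subring.closure_induction with
    | mem z hz =>
      rcases hz with hz | hz
      · exact ⟨0, by rw [pow_zero, mul_one]; exact hz⟩
      · exact ⟨1, by rw [pow_one]; exact (hWb z hz).2⟩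
    | zero => exact ⟨0, by rw [zero_mul]; exact R.zero_mem⟩
    | one => exact ⟨0, by rw [pow_zero, mul_one]; exact R.one_mem⟩
    | add a b _ _ ha hb =>
      obtain ⟨k, hk⟩ := ha
      obtain ⟨k', hk'⟩ := hb
      refine ⟨k + k', ?_⟩
      have h1 : (a + b) * fb ^ (k + k') = a * fb ^ k * fb ^ k' + b * fb ^ k' * fb ^ k := by
        rw [pow_add]; ring
      rw [h1]
      exact R.add_mem (R.mul_mem hk (R.pow_mem hfbR _)) (R.mul_mem hk' (R.pow_mem hfbR _))
    | neg a _ ha =>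
      obtain ⟨k, hk⟩ := ha
      exact ⟨k, by rw [neg_mul]; exact R.neg_mem hk⟩
    | mul a b _ _ ha hb =>
      obtain ⟨k, hk⟩ := ha
      obtain ⟨k', hk'⟩ := hb
      refine ⟨k + k', ?_⟩
      have h1 : a * b * fb ^ (k + k') = a * fb ^ k * (b * fb ^ k') := by
        rw [pow_add]; ring
      rw [h1]
      exact R.mul_mem hk hk'
  have hFx : ∀ i, algebraMap E K (x₀ i) ∈ Fr := by
    intro i
    obtain ⟨k, hk⟩ := hCfb _ (hx₀ i)
    have h1 : PMon P x (algebraMap E K (x₀ i)) := hPMalg _ (by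
      have h2 := PMon.of_mo (P := lo (V.comap (algebraMap E K)).toSubring C) (x := x₀)
        (Pi.single i 1)
      rwa [mo_single] at h2)
    refine ⟨algebraMap E K (x₀ i * fb ^ k), ⟨hRA _ hk, IsMonomial.alg (mul_ne_zero
      (hreg₀.ne i) (pow_ne_zero _ hfb0)), ?_⟩, algebraMap E K (fb ^ k), hfbpow k, ?_⟩
    · rw [map_mul]
      exact h1.mul hreg.ne (hfbpow k).2.2
    · rw [map_mul, mul_assoc, mul_inv_cancel₀ (hfbpow k).2.1.ne, mul_one]
  have hFT : ∀ t ∈ T, t ∈ Fr := by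
    intro t ht
    obtain ⟨γ, m, rfl⟩ := hTm t ht
    refine hFmul _ ?_ _ (hFmo y hFy m)
    have h1 : algebraMap E K (mo x₀ γ) = mo (fun i => algebraMap E K (x₀ i)) γ := by
      unfold mo
      rw [map_prod]
      exact Finset.prod_congr rfl fun i _ => map_zpow₀ _ _ _
    rw [h1]
    exact hFmo _ hFx γ
  -- the common denominator
  have hden : ∀ S : Finset K, (∀ t ∈ S, t ∈ Fr) → ∃ β ∈ Qm, ∀ t ∈ S, t * β ∈ Qm := by
    intro S
    induction S using Finset.induction_on with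
    | empty => exact fun _ => ⟨1, hQone, fun t ht => absurd ht (Finset.notMem_empty _)⟩
    | insert a S ha ih =>
      intro hS
      obtain ⟨β, hβ, h1⟩ := ih fun t ht => hS t (Finset.mem_insert_of_mem ht)
      obtain ⟨α', hα', β', hβ', h2⟩ := hS a (Finset.mem_insert_self _ _)
      refine ⟨β * β', hQmul _ hβ _ hβ', fun t ht => ?_⟩
      rcases Finset.mem_insert.1 ht with rfl | ht
      · have h3 : t * (β * β') = α' * β := by
          rw [h2]
          have := hβ'.2.1.ne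
          field_simp
        rw [h3]
        exact hQmul _ hα' _ hβ
      · rw [← mul_assoc]
        exact hQmul _ (h1 t ht) _ hβ'
  obtain ⟨β₁, hβ₁, hTβ⟩ := hden hTf.toFinset fun t ht => hFT t (hTf.mem_toFinset.1 ht)
  set β := algebraMap E K fb * β₁ with hβdef
  have hβ : β ∈ Qm := hQmul _ hfbQ _ hβ₁
  have hTβ' : ∀ t ∈ T, t * β ∈ Qm := by
    intro t ht
    have h1 : t * β = algebraMap E K fb * (t * β₁) := by rw [hβdef]; ring
    rw [h1]
    exact hQmul _ hfbQ _ (hTβ t (hTf.mem_toFinset.2 ht))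
  have hWβ : ∀ w ∈ Wb, algebraMap E K w * β ∈ A := by
    intro w hw
    have h1 : algebraMap E K w * β = algebraMap E K (w * fb) * β₁ := by
      rw [hβdef, map_mul]; ring
    rw [h1]
    exact A.mul_mem (hRA _ (hWb w hw).2) hβ₁.1
  -- the centre
  let S₁ : Set A := {a | (a : K) = β ∨ (∃ t ∈ T, (a : K) = t * β) ∨
    ∃ w ∈ Wb, (a : K) = algebraMap E K w * β}
  have hS₁f : S₁.Finite := by
    have h1 : ({β} ∪ ((fun t => t * β) '' T) ∪ ((fun w => algebraMap E K w * β) '' Wb) :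
        Set K).Finite :=
      ((Set.finite_singleton _).union (hTf.image _)).union (hWbf.image _)
    refine (h1.preimage (Subtype.val_injective.injOn (s := Set.univ) |>.mono
      (Set.subset_univ _))).subset ?_
    rintro a (h | ⟨t, ht, h⟩ | ⟨w, hw, h⟩)
    · exact Or.inl (Or.inl h)
    · exact Or.inl (Or.inr ⟨t, ht, h.symm⟩)
    · exact Or.inr ⟨w, hw, h.symm⟩
  have hβS : (⟨β, hβ.1⟩ : A) ∈ S₁ := Or.inl rfl
  have hβ0 : β ≠ 0 := hβ.2.1.ne
  refine ⟨Ideal.span S₁, ⟨?_, S₁, hS₁f, ?_, rfl⟩, ?_⟩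
  · intro h
    rw [Ideal.span_eq_bot] at h
    exact hβ0 (congrArg Subtype.val (h _ hβS))
  · rintro a (h | ⟨t, ht, h⟩ | ⟨w, hw, h⟩) h0
    · rw [h]; exact hβ.2.1
    · rw [h]; exact (hTβ' t ht).2.1
    · rw [h] at h0 ⊢
      exact (IsMonomial.alg fun h1 => left_ne_zero_of_mul h0 (by rw [h1, map_zero])).mul hβ.2.1
  have hf₀I : f₀ ∈ I₀ := by rw [hSI]; exact Ideal.subset_span hf₀S
  have hd₀D : d₀ ∈ D := by rw [hSD]; exact Ideal.subset_span hd₀S
  have hI₁P : ∀ a ∈ Ideal.span S₁, (a : K) / β ∈ P := by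
    intro a ha
    induction ha using Submodule.span_induction with
    | mem a ha =>
      rcases ha with h | ⟨t, ht, h⟩ | ⟨w, hw, h⟩
      · rw [h, div_self hβ0]; exact P.one_mem
      · rw [h, mul_div_assoc, div_self hβ0, mul_one]; exact hTP t ht
      · rw [h, mul_div_assoc, div_self hβ0, mul_one]
        exact hCP _ (Subring.subset_closure (Or.inr hw))
    | zero => simp
    | add a b _ _ ha hb =>
      have h1 : ((a + b : A) : K) / β = (a : K) / β + (b : K) / β := add_div _ _ _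
      rw [h1]
      exact P.add_mem ha hb
    | smul c a _ ha =>
      have h1 : ((c • a : A) : K) / β = (c : K) * ((a : K) / β) := mul_div_assoc _ _ _
      rw [h1]
      exact P.mul_mem (hAP c.2) ha
  have hIIP : ∀ a ∈ I₀ * Ideal.span S₁, (a : K) / ((f₀ : K) * β) ∈ P := by
    intro a ha
    refine Submodule.mul_induction_on ha ?_ ?_
    · intro b hb c hc
      have h3 : ((b * c : A) : K) / ((f₀ : K) * β) = (b : K) / (f₀ : K) * ((c : K) / β) := by
        change (b : K) * (c : K) / ((f₀ : K) * β) = _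
        field_simp
      change ((b * c : A) : K) / ((f₀ : K) * β) ∈ _
      rw [h3]
      exact P.mul_mem (hIP b hb) (hI₁P c hc)
    · intro b c hb hc
      have h3 : ((b + c : A) : K) / ((f₀ : K) * β) = (b : K) / ((f₀ : K) * β) +
          (c : K) / ((f₀ : K) * β) := add_div _ _ _
      rw [h3]
      exact P.add_mem hb hc
  have hPV : P ≤ V.toSubring := lo_le hBV
  let ff : A := f₀ * ⟨β, hβ.1⟩
  have hffc : (ff : K) = (f₀ : K) * β := rfl
  have hff : ff ∈ I₀ * Ideal.span S₁ := Ideal.mul_mem_mul hf₀I (Ideal.subset_span hβS)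
  have hff0 : ff ≠ 0 := fun h => mul_ne_zero hf₀0' hβ0 (congrArg Subtype.val h)
  have hchP : chart A (I₀ * Ideal.span S₁) ff ≤ P := by
    unfold chart
    rw [Subring.closure_le]
    rintro z (hz | ⟨a, ha, rfl⟩)
    · exact hAP hz
    · rw [hffc]
      exact hIIP a ha
  have hmem : ∀ z : K, (h : z * β ∈ A) → (⟨z * β, h⟩ : A) ∈ S₁ →
      z ∈ chart A (I₀ * Ideal.span S₁) ff := by
    intro z h hz
    refine Subring.subset_closure (Or.inr ⟨f₀ * ⟨z * β, h⟩, Ideal.mul_mem_mul hf₀I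
      (Ideal.subset_span hz), ?_⟩)
    rw [hffc]
    change z = (f₀ : K) * (z * β) / ((f₀ : K) * β)
    field_simp
  have hBch : B ≤ chart A (I₀ * Ideal.span S₁) ff := by
    rw [hB, Subring.closure_le]
    rintro z (⟨c, hc, rfl⟩ | hz)
    · have h1 : C ≤ (chart A (I₀ * Ideal.span S₁) ff).comap (algebraMap E K) := by
        rw [hC, Subring.closure_le]
        rintro c (hc | hc)
        · exact Subring.subset_closure (Or.inl (hRA c hc))
        · exact hmem _ (hWβ c hc) (Or.inr (Or.inr ⟨c, hc, rfl⟩))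
      exact h1 hc
    · exact hmem z (hTβ' z hz).1 (Or.inr (Or.inl ⟨z, hz, rfl⟩))
  refine logDesing_of hff hff0 (fun a ha => ?_) hd₀D hd₀0 (P := P) ?_ hreg hDP ?_
  · rw [hffc]
    exact hPV (hIIP a ha)
  · exact lo_eq hBV hBch hchP
  · rw [hffc]
    exact (hZPM _ (Or.inr (Or.inl rfl))).mul hreg.ne
      ((hZPM _ (Or.inr (Or.inr rfl))).mul hreg.ne hβ.2.2)

end main

end Pool.Agent.W418.LU2
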