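import Pool.Agent.W418.LU2.Poly

/-!
# Local rings in a field
-/

set_option autoImplicit false
set_option linter.unusedVariables false
set_option linter.unusedSectionVars false

universe u v

namespace Pool.Agent.W418.LU2

open IsLocalRing Polynomial

variable {F : Type u} [Field F]

/-- The fractions of elements of `S` whose denominators are units of `A`. -/
def lo (A S : Subring F) : Subring F where
  carrier := {x | ∃ a ∈ S, ∃ b ∈ S, b ≠ 0 ∧ b⁻¹ ∈ A ∧ x = a * b⁻¹}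
  mul_mem' := by
    rintro x y ⟨a, ha, b, hb, hb0, hbA, rfl⟩ ⟨c, hc, d, hd, hd0, hdA, rfl⟩
    refine ⟨a * c, S.mul_mem ha hc, b * d, S.mul_mem hb hd, mul_ne_zero hb0 hd0, ?_, ?_⟩
    · rw [mul_inv]; exact A.mul_mem hbA hdA
    · rw [mul_inv]; ring
  one_mem' := ⟨1, S.one_mem, 1, S.one_mem, one_ne_zero, by rw [inv_one]; exact A.one_mem, by simp⟩
  add_mem' := by
    rintro x y ⟨a, ha, b, hb, hb0, hbA, rfl⟩ ⟨c, hc, d, hd, hd0, hdA, rfl⟩
    refine ⟨a * d + c * b, S.add_mem (S.mul_mem ha hd) (S.mul_mem hc hb), b * d,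
      S.mul_mem hb hd, mul_ne_zero hb0 hd0, ?_, ?_⟩
    · rw [mul_inv]; exact A.mul_mem hbA hdA
    · field_simp
  zero_mem' := ⟨0, S.zero_mem, 1, S.one_mem, one_ne_zero, by rw [inv_one]; exact A.one_mem,
    by simp⟩
  neg_mem' := by
    rintro x ⟨a, ha, b, hb, hb0, hbA, rfl⟩
    exact ⟨-a, S.neg_mem ha, b, hb, hb0, hbA, by ring⟩

/-- `A` is local. -/
def Loc (A : Subring F) : Prop := ∀ a ∈ A, (a ≠ 0 ∧ a⁻¹ ∈ A) ∨ (1 - a ≠ 0 ∧ (1 - a)⁻¹ ∈ A)

lemma mem_lo {A S : Subring F} {x : F} :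
    x ∈ lo A S ↔ ∃ a ∈ S, ∃ b ∈ S, b ≠ 0 ∧ b⁻¹ ∈ A ∧ x = a * b⁻¹ := Iff.rfl

lemma le_lo (A S : Subring F) : S ≤ lo A S := fun x hx =>
  ⟨x, hx, 1, S.one_mem, one_ne_zero, by rw [inv_one]; exact A.one_mem, by simp⟩

lemma lo_le {A S : Subring F} (hS : S ≤ A) : lo A S ≤ A := by
  rintro x ⟨a, ha, b, hb, hb0, hbA, rfl⟩
  exact A.mul_mem (hS ha) hbA

lemma lo_mono {A S S' : Subring F} (h : S ≤ S') : lo A S ≤ lo A S' := by
  rintro x ⟨a, ha, b, hb, hb0, hbA, rfl⟩
  exact ⟨a, h ha, b, h hb, hb0, hbA, rfl⟩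

lemma inv_mem_lo {A S : Subring F} (hS : S ≤ A) {x : F} (hx : x ∈ lo A S) (h0 : x ≠ 0)
    (hA : x⁻¹ ∈ A) : x⁻¹ ∈ lo A S := by
  obtain ⟨a, ha, b, hb, hb0, hbA, rfl⟩ := hx
  have ha0 : a ≠ 0 := by
    rintro rfl
    simp at h0
  refine ⟨b, hb, a, ha, ha0, ?_, ?_⟩
  · have h1 : a⁻¹ = (a * b⁻¹)⁻¹ * b⁻¹ := by
      field_simp
    rw [h1]
    exact A.mul_mem hA hbA
  · rw [mul_inv, inv_inv, mul_comm]

lemma isUnit_lo_iff {A S : Subring F} (hS : S ≤ A) (x : lo A S) :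
    IsUnit x ↔ (x : F) ≠ 0 ∧ (x : F)⁻¹ ∈ A := by
  constructor
  · intro h
    obtain ⟨y, hy⟩ := isUnit_iff_exists_inv.1 h
    have h1 : (x : F) * y = 1 := by
      have := congrArg Subtype.val hy
      exact this
    have h2 : (x : F) ≠ 0 := left_ne_zero_of_mul_eq_one h1
    refine ⟨h2, ?_⟩
    rw [← eq_inv_of_mul_eq_one_right h1]
    exact lo_le hS y.2
  · rintro ⟨h0, hA⟩
    refine isUnit_iff_exists_inv.2 ⟨⟨_, inv_mem_lo hS x.2 h0 hA⟩, Subtype.ext ?_⟩
    exact mul_inv_cancel₀ h0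

lemma isLocalRing_lo {A S : Subring F} (hA : Loc A) (hS : S ≤ A) : IsLocalRing (lo A S) := by
  refine IsLocalRing.of_isUnit_or_isUnit_one_sub_self fun a => ?_
  rcases hA a (lo_le hS a.2) with h | h
  · exact Or.inl ((isUnit_lo_iff hS a).2 h)
  · exact Or.inr ((isUnit_lo_iff hS (1 - a)).2 h)

/-- The ring `S'` is generated by `t` over `S`. -/
structure Adj (A S S' : Subring F) (t : F) : Prop where
  loc : Loc A
  SA : S' ≤ A
  le : S ≤ S'
  tS : t ∈ S'
  gen : ∀ y ∈ S', ∃ g : (lo A S)[X], eval₂ (lo A S).subtype t g = y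

lemma adj_closure {A S : Subring F} {t : F} (hA : Loc A) (hS : S ≤ A) (ht : t ∈ A) :
    Adj A S (Subring.closure (insert t (S : Set F))) t where
  loc := hA
  SA := by
    rw [Subring.closure_le]
    rintro y (rfl | hy)
    · exact ht
    · exact hS hy
  le := fun y hy => Subring.subset_closure (Set.mem_insert_of_mem _ hy)
  tS := Subring.subset_closure (Set.mem_insert _ _)
  gen := by
    intro y hy
    induction hy using Subring.closure_induction with
    | mem y hy =>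
      rcases hy with rfl | hy
      · exact ⟨X, eval₂_X _ _⟩
      · exact ⟨C ⟨y, le_lo A S hy⟩, eval₂_C _ _⟩
    | zero => exact ⟨0, eval₂_zero _ _⟩
    | one => exact ⟨1, eval₂_one _ _⟩
    | add a b _ _ ha hb =>
      obtain ⟨g, rfl⟩ := ha
      obtain ⟨h, rfl⟩ := hb
      exact ⟨g + h, eval₂_add _ _⟩
    | neg a _ ha =>
      obtain ⟨g, rfl⟩ := ha
      exact ⟨-g, eval₂_neg _⟩
    | mul a b _ _ ha hb =>
      obtain ⟨g, rfl⟩ := ha
      obtain ⟨h, rfl⟩ := hb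
      exact ⟨g * h, eval₂_mul _ _⟩

section adj

variable {A S S' : Subring F} {t : F} (h : Adj A S S' t)

include h

lemma Adj.sA : S ≤ A := h.le.trans h.SA

lemma Adj.ev_mem (g : (lo A S)[X]) : eval₂ (lo A S).subtype t g ∈ lo A S' := by
  induction g using Polynomial.induction_on' with
  | add p q hp hq => rw [eval₂_add]; exact (lo A S').add_mem hp hq
  | monomial n a =>
    rw [eval₂_monomial]
    exact (lo A S').mul_mem (lo_mono h.le a.2) ((lo A S').pow_mem (le_lo A S' h.tS) n)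

/-- The evaluation. -/
noncomputable def Adj.ev : (lo A S)[X] →+* lo A S' :=
  (eval₂RingHom (lo A S).subtype t).codRestrict (lo A S') fun g => h.ev_mem g

lemma Adj.ev_coe (g : (lo A S)[X]) : (h.ev g : F) = eval₂ (lo A S).subtype t g := rfl

lemma Adj.ev_C (a : lo A S) : (h.ev (C a) : F) = a := by
  rw [h.ev_coe, eval₂_C]; rfl

lemma Adj.ev_X : (h.ev X : F) = t := by
  rw [h.ev_coe, eval₂_X]

/-- The centre. -/
noncomputable def Adj.P : Ideal (lo A S)[X] :=
  haveI := isLocalRing_lo h.loc h.SA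
  (maximalIdeal (lo A S')).comap h.ev

lemma Adj.P_prime : h.P.IsPrime := by
  have := isLocalRing_lo h.loc h.SA
  unfold Adj.P
  infer_instance

lemma Adj.not_mem_P (g : (lo A S)[X]) : g ∉ h.P ↔ IsUnit (h.ev g) := by
  have := isLocalRing_lo h.loc h.SA
  unfold Adj.P
  rw [Ideal.mem_comap, mem_maximalIdeal, mem_nonunits_iff, not_not]

lemma Adj.comap_P [IsLocalRing (lo A S)] : h.P.comap C = maximalIdeal (lo A S) := by
  ext a
  rw [Ideal.mem_comap, mem_maximalIdeal, mem_nonunits_iff, ← not_iff_not, h.not_mem_P, not_not,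
    isUnit_lo_iff h.SA, isUnit_lo_iff h.sA, h.ev_C]

lemma Adj.X_mem : X ∈ h.P ↔ ¬ (t ≠ 0 ∧ t⁻¹ ∈ A) := by
  rw [← not_iff_not, h.not_mem_P, isUnit_lo_iff h.SA, h.ev_X, not_not]

/-- The evaluation of the localization. -/
noncomputable def Adj.th [h.P.IsPrime] : Localization.AtPrime h.P →+* lo A S' :=
  IsLocalization.lift (M := h.P.primeCompl) (g := h.ev) fun y => (h.not_mem_P y.1).1 y.2

lemma Adj.th_alg [h.P.IsPrime] (g : (lo A S)[X]) :
    h.th (algebraMap (lo A S)[X] (Localization.AtPrime h.P) g) = h.ev g :=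
  IsLocalization.lift_eq _ _

lemma Adj.th_surj [h.P.IsPrime] : Function.Surjective h.th := by
  rintro ⟨y, a, ha, b, hb, hb0, hbA, rfl⟩
  obtain ⟨g, hg⟩ := h.gen a ha
  obtain ⟨f, hf⟩ := h.gen b hb
  have h1 : f ∉ h.P := by
    rw [h.not_mem_P, isUnit_lo_iff h.SA, h.ev_coe, hf]
    exact ⟨hb0, hbA⟩
  refine ⟨IsLocalization.mk' _ g (⟨f, h1⟩ : h.P.primeCompl), ?_⟩
  have h2 : h.th (algebraMap _ _ f) * h.th (IsLocalization.mk' _ g (⟨f, h1⟩ : h.P.primeCompl)) =
      h.th (algebraMap _ _ g) := by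
    rw [← map_mul]
    congr 1
    exact IsLocalization.mk'_spec' _ g (⟨f, h1⟩ : h.P.primeCompl)
  rw [h.th_alg, h.th_alg] at h2
  have h3 := congrArg Subtype.val h2
  apply Subtype.ext
  change (_ : F) * (_ : F) = (_ : F) at h3
  rw [h.ev_coe, h.ev_coe, hf, hg] at h3
  change (_ : F) = a * b⁻¹
  rw [← h3]
  field_simp

end adj

section finish

variable {B C' : Type u} [CommRing B] [IsRegularLocalRing B] [CommRing C'] [IsLocalRing C']

/-- Regularity and independence in the quotient. -/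
theorem quot_regular {ι κ : Type} [Fintype ι] [Fintype κ] {z : ι → B} {h : κ → B}
    (hz : Ind (Sum.elim z h)) (θ : B →+* C') (hθ : Function.Surjective θ)
    (hk : RingHom.ker θ = Ideal.span (Set.range h)) :
    IsRegularLocalRing C' ∧ Ind (fun i => θ (z i)) := by
  refine ⟨?_, hz.quot θ hθ hk⟩
  have h1 : IsRegularLocalRing (B ⧸ Ideal.span (Set.range h)) :=
    (hz.comp Sum.inr Sum.inr_injective).regular
  rw [← hk] at h1
  exact IsRegularLocalRing.of_ringEquiv (RingHom.quotientKerEquivOfSurjective hθ)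

end finish

end Pool.Agent.W418.LU2
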