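import Pool.Agent.W418.LU2.Stg

/-!
# Regular pairs
-/

set_option autoImplicit false
set_option linter.unusedVariables false
set_option linter.unusedSectionVars false

universe u v

namespace Pool.Agent.W418.LU2

open IsLocalRing

/-- The ring `P` is a regular local ring, and the zero set of `J` is a divisor with strict normal
crossings: the radical of `J` is generated by a product of different elements of a regular system
of parameters. -/
def RegularPair (P : Type u) [CommRing P] (J : Ideal P) : Prop :=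
  ∃ (_ : IsRegularLocalRing P) (n : ℕ) (x : Fin n → P) (s : Finset (Fin n)),
    Ideal.span (Set.range x) = maximalIdeal P ∧ ringKrullDim P = n ∧
      J.radical = Ideal.span {∏ i ∈ s, x i}

section prime

variable {B : Type u} [CommRing B] [IsRegularLocalRing B]

/-- The elements of a regular system of parameters are prime. -/
theorem Ind.prime {ι : Type} [Fintype ι] {z : ι → B} (h : Ind z) (i : ι) : Prime (z i) := by
  have h1 : Ind (fun _ : Unit => z i) := h.comp (fun _ : Unit => i) fun _ _ _ => rfl
  have h2 := h1.regular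
  have h3 : IsDomain (B ⧸ Ideal.span (Set.range fun _ : Unit => z i)) :=
    Pool.Agent.H379R3.isDomain _
  rw [Set.range_const] at h3
  have h4 := (Ideal.Quotient.isDomain_iff_prime _).1 h3
  exact (Ideal.span_singleton_prime (h.ne_zero i)).1 h4

omit [IsRegularLocalRing B] in
theorem Ind.not_dvd [IsLocalRing B] {ι : Type} [Fintype ι] {z : ι → B} (h : Ind z) {i j : ι}
    (hij : i ≠ j) : ¬ z i ∣ z j := by
  classical
  rintro ⟨c, hc⟩
  have h1 := h.2 (Pi.single j 1 - Pi.single i c) (by
    have h2 : ∑ l, (Pi.single j 1 - Pi.single i c : ι → B) l * z l = z j - c * z i := by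
      simp only [Pi.sub_apply, sub_mul, Finset.sum_sub_distrib]
      congr 1
      · rw [Finset.sum_eq_single j]
        · rw [Pi.single_eq_same, one_mul]
        · intro l _ hl
          rw [Pi.single_eq_of_ne hl, zero_mul]
        · intro h; exact absurd (Finset.mem_univ _) h
      · rw [Finset.sum_eq_single i]
        · rw [Pi.single_eq_same]
        · intro l _ hl
          rw [Pi.single_eq_of_ne hl, zero_mul]
        · intro h; exact absurd (Finset.mem_univ _) h
    rw [h2, hc, mul_comm, sub_self]
    exact Ideal.zero_mem _) j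
  rw [Pi.sub_apply, Pi.single_eq_same, Pi.single_eq_of_ne hij.symm, sub_zero] at h1
  exact (Ideal.ne_top_iff_one _).1 (maximalIdeal.isMaximal _).ne_top h1

theorem prod_dvd [IsDomain B] {ι : Type} [Fintype ι] {z : ι → B} (h : Ind z) (s : Finset ι)
    (a : B) (ha : ∀ i ∈ s, z i ∣ a) : ∏ i ∈ s, z i ∣ a := by
  classical
  induction s using Finset.induction_on with
  | empty => simp
  | insert i s hi ih =>
    obtain ⟨b, rfl⟩ := ih fun j hj => ha j (Finset.mem_insert_of_mem hj)
    rw [Finset.prod_insert hi, mul_comm]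
    apply mul_dvd_mul_left
    rcases (h.prime i).dvd_or_dvd (ha i (Finset.mem_insert_self _ _)) with h1 | h1
    · exfalso
      obtain ⟨j, hj, h2⟩ := (h.prime i).exists_mem_finset_dvd h1
      exact h.not_dvd (fun h3 => hi (by rw [h3]; exact hj)) h2
    · exact h1

/-- The pair of a monomial. -/
theorem regularPair_monomial [IsDomain B] {ι : Type} [Fintype ι] {z : ι → B} (h : Ind z) (u : B)
    (hu : IsUnit u) (n : ι → ℕ) : RegularPair B (Ideal.span {u * ∏ i, z i ^ n i}) := by
  classical
  obtain ⟨m, w, hw, hd⟩ := h.extend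
  let q : ι ⊕ Fin m ≃ Fin (Fintype.card ι + m) :=
    Fintype.equivFinOfCardEq (by rw [Fintype.card_sum, Fintype.card_fin])
  refine ⟨inferInstance, Fintype.card ι + m, Sum.elim z w ∘ q.symm,
    (Finset.univ.filter fun i => 0 < n i).map
      ⟨fun i => q (Sum.inl i), fun a b h => Sum.inl_injective (q.injective h)⟩, ?_, hd, ?_⟩
  · rw [Set.range_comp, q.symm.range_eq_univ, Set.image_univ]
    exact hw
  · have hprod : ∏ i ∈ (Finset.univ.filter fun i => 0 < n i).map
        ⟨fun i => q (Sum.inl i), fun a b h => Sum.inl_injective (q.injective h)⟩,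
        (Sum.elim z w ∘ q.symm) i = ∏ i ∈ Finset.univ.filter fun i => 0 < n i, z i := by
      rw [Finset.prod_map]
      refine Finset.prod_congr rfl fun i _ => ?_
      change Sum.elim z w (q.symm (q (Sum.inl i))) = z i
      rw [Equiv.symm_apply_apply]
      rfl
    rw [hprod]
    apply le_antisymm
    · intro a ha
      obtain ⟨k, hk⟩ := Ideal.mem_radical_iff.1 ha
      rw [Ideal.mem_span_singleton] at hk ⊢
      apply prod_dvd h
      intro i hi
      have h1 : z i ∣ a ^ k := by
        refine dvd_trans ?_ hk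
        refine dvd_trans ?_ (dvd_mul_left _ _)
        refine dvd_trans ?_ (Finset.dvd_prod_of_mem _ (Finset.mem_univ i))
        exact dvd_pow_self _ (Finset.mem_filter.1 hi).2.ne'
      exact (h.prime i).dvd_of_dvd_pow h1
    · rw [Ideal.span_le, Set.singleton_subset_iff]
      refine Ideal.mem_radical_iff.2 ⟨∑ i, n i, ?_⟩
      rw [Ideal.mem_span_singleton, ← Finset.prod_pow]
      refine (hu.mul_left_dvd).2 ?_
      have h1 : ∏ i, z i ^ n i = ∏ i ∈ Finset.univ.filter fun i => 0 < n i, z i ^ n i := by
        symm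
        apply Finset.prod_subset (Finset.filter_subset _ _)
        intro i _ hi
        have h2 : n i = 0 := by
          by_contra h3
          exact hi (Finset.mem_filter.2 ⟨Finset.mem_univ _, Nat.pos_of_ne_zero h3⟩)
        rw [h2, pow_zero]
      rw [h1]
      exact Finset.prod_dvd_prod_of_dvd _ _ fun i _ =>
        pow_dvd_pow _ (Finset.single_le_sum (fun _ _ => Nat.zero_le _) (Finset.mem_univ i))

/-- The divisors of monomials are monomials. -/
theorem dvd_monomial [IsDomain B] {ι : Type} [Fintype ι] {z : ι → B} (h : ∀ i, Prime (z i))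
    (N : ℕ) : ∀ (n : ι → ℕ) (u a b : B), IsUnit u → ∑ i, n i ≤ N → a * b = u * ∏ i, z i ^ n i →
    ∃ (v : B) (m : ι → ℕ), IsUnit v ∧ a = v * ∏ i, z i ^ m i := by
  classical
  induction N with
  | zero =>
    intro n u a b hu hn hab
    have h1 : ∀ i, n i = 0 := fun i => by
      have := Finset.single_le_sum (f := n) (fun _ _ => Nat.zero_le _) (Finset.mem_univ i)
      omega
    refine ⟨a, 0, ?_, by simp⟩
    have h2 : a * b = u := by rw [hab]; simp [h1]
    rw [← h2] at hu
    exact isUnit_of_mul_isUnit_left hu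
  | succ N ih =>
    intro n u a b hu hn hab
    by_cases h0 : ∀ i, n i = 0
    · refine ⟨a, 0, ?_, by simp⟩
      have h2 : a * b = u := by rw [hab]; simp [h0]
      rw [← h2] at hu
      exact isUnit_of_mul_isUnit_left hu
    · push Not at h0
      obtain ⟨i, hi⟩ := h0
      have key : u * ∏ l, z l ^ n l = z i * (u * ∏ l, z l ^ (Function.update n i (n i - 1)) l) := by
        rw [← Finset.mul_prod_erase _ _ (Finset.mem_univ i),
          ← Finset.mul_prod_erase _ (fun l => z l ^ (Function.update n i (n i - 1)) l)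
            (Finset.mem_univ i), Function.update_self]
        have h2 : ∏ l ∈ Finset.univ.erase i, z l ^ (Function.update n i (n i - 1)) l =
            ∏ l ∈ Finset.univ.erase i, z l ^ n l :=
          Finset.prod_congr rfl fun l hl => by
            rw [Function.update_of_ne (Finset.mem_erase.1 hl).1]
        rw [h2]
        obtain ⟨k, hk⟩ := Nat.exists_eq_succ_of_ne_zero hi
        rw [hk, Nat.succ_sub_one, pow_succ]
        ring
      have hsum : ∑ l, (Function.update n i (n i - 1)) l ≤ N := by
        rw [← Finset.add_sum_erase _ _ (Finset.mem_univ i), Function.update_self]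
        have h2 : ∑ l ∈ Finset.univ.erase i, (Function.update n i (n i - 1)) l =
            ∑ l ∈ Finset.univ.erase i, n l :=
          Finset.sum_congr rfl fun l hl => by
            rw [Function.update_of_ne (Finset.mem_erase.1 hl).1]
        rw [h2]
        rw [← Finset.add_sum_erase _ _ (Finset.mem_univ i)] at hn
        omega
      rw [key] at hab
      have h3 : z i ∣ a * b := ⟨_, hab⟩
      rcases (h i).dvd_or_dvd h3 with ⟨a', rfl⟩ | ⟨b', rfl⟩
      · have h4 : a' * b = u * ∏ l, z l ^ (Function.update n i (n i - 1)) l := by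
          apply mul_left_cancel₀ (h i).ne_zero
          rw [← hab]; ring
        obtain ⟨v, m, hv, hm⟩ := ih _ u a' b hu hsum h4
        refine ⟨v, Function.update m i (m i + 1), hv, ?_⟩
        rw [hm, ← Finset.mul_prod_erase _ _ (Finset.mem_univ i),
          ← Finset.mul_prod_erase _ (fun l => z l ^ (Function.update m i (m i + 1)) l)
            (Finset.mem_univ i), Function.update_self]
        have h2 : ∏ l ∈ Finset.univ.erase i, z l ^ (Function.update m i (m i + 1)) l =
            ∏ l ∈ Finset.univ.erase i, z l ^ m l :=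
          Finset.prod_congr rfl fun l hl => by
            rw [Function.update_of_ne (Finset.mem_erase.1 hl).1]
        rw [h2, pow_succ]
        ring
      · have h4 : a * b' = u * ∏ l, z l ^ (Function.update n i (n i - 1)) l := by
          apply mul_left_cancel₀ (h i).ne_zero
          rw [← hab]; ring
        exact ih _ u a b' hu hsum h4

end prime

section field

variable {F : Type u} [Field F] {A P : Subring F} {ι : Type} [Fintype ι] {x : ι → F}

/-- The pair of a monomial in a field. -/
theorem RegP.pair (h : RegP A P x) {z : P} (hz : PMon P x z) : RegularPair P (Ideal.span {z}) := by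
  classical
  have hreg := h.reg
  let ν := {i : ι // (⟨x i, h.mem i⟩ : P) ∈ maximalIdeal P}
  have hInd : Ind (fun i : ν => (⟨x i, h.mem i⟩ : P)) :=
    h.ind.ind (Subtype.val : ν → ι) Subtype.val_injective fun i => i.2
  obtain ⟨u, u0, u1, u2, δ, hzδ⟩ := hz
  -- the units
  have hsplit : ∃ v, v ≠ 0 ∧ v ∈ P ∧ v⁻¹ ∈ P ∧ mo x δ = v * ∏ i : ν, x i ^ δ i := by
    refine ⟨∏ i : {i : ι // ¬ (⟨x i, h.mem i⟩ : P) ∈ maximalIdeal P}, x i ^ δ i, ?_, ?_, ?_, ?_⟩
    · exact Finset.prod_ne_zero_iff.2 fun i _ => zpow_ne_zero _ (h.ne _)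
    · refine P.prod_mem fun i _ => ?_
      have h1 := i.2
      rw [mem_maximalIdeal, mem_nonunits_iff, not_not, h.isUnit] at h1
      have h2 := h.inv _ (h.mem i) h1.1 h1.2
      rcases Int.eq_nat_or_neg (δ i) with ⟨n, h3 | h3⟩
      · rw [h3, zpow_natCast]; exact P.pow_mem (h.mem i) n
      · rw [h3, zpow_neg, zpow_natCast, ← inv_pow]; exact P.pow_mem h2 n
    · rw [← Finset.prod_inv_distrib]
      refine P.prod_mem fun i _ => ?_
      have h1 := i.2
      rw [mem_maximalIdeal, mem_nonunits_iff, not_not, h.isUnit] at h1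
      have h2 := h.inv _ (h.mem i) h1.1 h1.2
      rcases Int.eq_nat_or_neg (δ i) with ⟨n, h3 | h3⟩
      · rw [h3, zpow_natCast, ← inv_pow]; exact P.pow_mem h2 n
      · rw [h3, zpow_neg, zpow_natCast, inv_inv]; exact P.pow_mem (h.mem i) n
    · unfold mo
      rw [mul_comm]
      exact (Fintype.prod_subtype_mul_prod_subtype
        (fun i => (⟨x i, h.mem i⟩ : P) ∈ maximalIdeal P) fun i => x i ^ δ i).symm
  obtain ⟨v, v0, v1, v2, hv⟩ := hsplit
  have huv : IsUnit (⟨u * v, P.mul_mem u1 v1⟩ : P) := by
    refine isUnit_iff_exists_inv.2 ⟨⟨(u * v)⁻¹, ?_⟩, Subtype.ext ?_⟩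
    · rw [mul_inv]; exact P.mul_mem u2 v2
    · exact mul_inv_cancel₀ (mul_ne_zero u0 v0)
  -- the signs
  have heq : ∀ w : P, (w : F) = u * v * ∏ i : ν, x i ^ δ i →
      w * ∏ i : ν, (⟨x i, h.mem i⟩ : P) ^ (-δ i).toNat =
      ⟨u * v, P.mul_mem u1 v1⟩ * ∏ i : ν, (⟨x i, h.mem i⟩ : P) ^ (δ i).toNat := by
    intro w hw
    apply Subtype.ext
    change (w : F) * ((∏ i : ν, (⟨x i, h.mem i⟩ : P) ^ (-δ i).toNat : P) : F) =
      u * v * ((∏ i : ν, (⟨x i, h.mem i⟩ : P) ^ (δ i).toNat : P) : F)
    have hc : ∀ n : ν → ℕ, ((∏ i : ν, (⟨x i, h.mem i⟩ : P) ^ n i : P) : F) =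
        ∏ i : ν, x i ^ n i := by
      intro n
      have h1 := map_prod P.subtype (fun i : ν => (⟨x i, h.mem i⟩ : P) ^ n i) Finset.univ
      exact h1
    rw [hc, hc, hw, mul_assoc, ← Finset.prod_mul_distrib]
    congr 1
    refine Finset.prod_congr rfl fun i _ => ?_
    rw [← zpow_natCast, ← zpow_natCast, ← zpow_add₀ (h.ne _)]
    congr 1
    omega
  have hz' : (z : F) = u * v * ∏ i : ν, x i ^ δ i := by rw [hzδ, hv, mul_assoc]
  have hδ : ∀ i : ν, 0 ≤ δ i := by
    intro i
    by_contra hneg
    have h1 := heq z hz'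
    have h2 : (⟨x i, h.mem i⟩ : P) ∣ ⟨u * v, P.mul_mem u1 v1⟩ *
        ∏ i : ν, (⟨x i, h.mem i⟩ : P) ^ (δ i).toNat := by
      rw [← h1]
      refine dvd_trans ?_ (dvd_mul_left _ _)
      refine dvd_trans ?_ (Finset.dvd_prod_of_mem _ (Finset.mem_univ i))
      exact dvd_pow_self _ (by omega)
    have hpr : Prime (⟨x i, h.mem i⟩ : P) := hInd.prime i
    rcases hpr.dvd_or_dvd h2 with h3 | h3
    · exact hpr.not_isUnit (isUnit_of_dvd_unit h3 huv)
    · obtain ⟨j, -, h4⟩ := hpr.exists_mem_finset_dvd h3
      have h5 := hpr.dvd_of_dvd_pow h4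
      by_cases hij : i = j
      · subst hij
        have h6 : (δ i).toNat = 0 := by omega
        rw [h6, pow_zero] at h4
        exact hpr.not_isUnit (isUnit_of_dvd_one h4)
      · exact hInd.not_dvd hij h5
  have hfin : z = ⟨u * v, P.mul_mem u1 v1⟩ * ∏ i : ν, (⟨x i, h.mem i⟩ : P) ^ (δ i).toNat := by
    rw [← heq z hz']
    have h1 : ∏ i : ν, (⟨x i, h.mem i⟩ : P) ^ (-δ i).toNat = 1 :=
      Finset.prod_eq_one fun i _ => by
        have h2 : (-δ i).toNat = 0 := by have := hδ i; omega
        rw [h2, pow_zero]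
    rw [h1, mul_one]
  rw [hfin]
  exact regularPair_monomial hInd _ huv _

end field

end Pool.Agent.W418.LU2
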