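import Pool.Agent.W418.LU2.Final

/-!
# Local uniformization of complete intersections in tori
-/

set_option autoImplicit false
set_option linter.unusedVariables false
set_option linter.unusedSectionVars false

universe u v

namespace Pool.Agent.W418.LU2

open IsLocalRing

section plain

variable {E K : Type u} [Field E] [Field K] [Algebra E K]

/-- Local uniformization. -/
theorem plain (V : ValuationSubring K) {p : ℕ} [hp : Fact p.Prime]
    (hpV : V.valuation (p : K) < 1) (R : Subring E) [IsNoetherianRing R]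
    (hfr : ∀ z : E, ∃ a ∈ R, ∃ b ∈ R, b ≠ 0 ∧ z = a * b⁻¹)
    (hRV : ∀ a ∈ R, algebraMap E K a ∈ V)
    (hLU : LogUnif (V.comap (algebraMap E K)) R) {n : ℕ}
    (W : Fin n → Submodule E K) [∀ s, FiniteDimensional E (W s)]
    (hgen : IntermediateField.adjoin E (⋃ s, (W s : Set K)) = ⊤)
    {r : ℕ} (ι : Fin r → Type) [∀ j, Fintype (ι j)] (i₀ : ∀ j, ι j)
    (c : ∀ j, ι j → E) (hc : ∀ j i, c j i ≠ 0) (d : ∀ j, ι j → Fin n → ℕ)
    (g : ∀ j i s, Fin (d j i s) → K) (hgW : ∀ j i s t, g j i s t ∈ W s)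
    (hg0 : ∀ j i s t, g j i s t ≠ 0) (e : ∀ j, ι j → Fin r → ℕ) (f : Fin r → K)
    (he : ∀ j i l, e j i l ≠ 0 → l < j ∧ f l ≠ 0)
    (hf : ∀ j, f j = ∑ i, algebraMap E K (c j i) * ((∏ s, ∏ t, g j i s t) * ∏ l, f l ^ e j i l))
    (deg : Fin r → Fin n → ZMod p) (hdeg : ∀ j, deg j = dg2 deg (d j (i₀ j)) (e j (i₀ j)))
    (hind : LinearIndependent (ZMod p) fun q : (j : Fin r) × {i : ι j // i ≠ i₀ j} =>
      dg2 deg (d q.1 q.2) (e q.1 q.2) - deg q.1)
    (htr : Algebra.trdeg E K + (Nat.card {j // f j = 0} : Cardinal.{u}) =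
      ((∑ s, Module.finrank E (W s) : ℕ) : Cardinal.{u}))
    (Z : Set K) (hZf : Z.Finite) (hZm : ∀ z ∈ Z, IsMonomial W f z) :
    ∃ T : Set K, T.Finite ∧ Subring.closure ((R.map (algebraMap E K) : Set K) ∪ T) ≤ V.toSubring ∧
      IsRegularLocalRing (lo V.toSubring
        (Subring.closure ((R.map (algebraMap E K) : Set K) ∪ T))) ∧
      (∀ z ∈ Z, z ∈ V → z ∈ lo V.toSubring
        (Subring.closure ((R.map (algebraMap E K) : Set K) ∪ T))) ∧
      ∀ z : K, ∃ a ∈ Subring.closure ((R.map (algebraMap E K) : Set K) ∪ T),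
        ∃ b ∈ Subring.closure ((R.map (algebraMap E K) : Set K) ∪ T), b ≠ 0 ∧ z = a * b⁻¹ := by
  classical
  have hrep := fun z (hz : z ∈ Z) => exists_rep (hZm z hz)
  choose! ez Uz hez0 hUz hrep using hrep
  let Uall : Finset K := hZf.toFinset.biUnion Uz
  have hUall : ∀ u ∈ Uall, u ≠ 0 ∧ ∃ s, u ∈ W s := by
    intro u hu
    obtain ⟨z, hz, hzu⟩ := Finset.mem_biUnion.1 hu
    exact hUz z (hZf.mem_toFinset.1 hz) u hzu
  let qU := Uall.equivFin
  choose ub hub using fun q : Fin Uall.card => (hUall (qU.symm q) (qU.symm q).2).2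
  obtain ⟨Θ, _, y, hy, hyU, hyf, hyW, hyfr, Hc, 𝒮, hHcf, hHc0, hOk, hPM𝒮, htr'⟩ :=
    lci_sys V W hgen ι i₀ c hc d g hgW hg0 e f he hf deg hdeg hind htr
      (fun q => ((qU.symm q : Uall) : K)) ub hub (fun q => (hUall _ (qU.symm q).2).1)
  have hyU' : ∀ u ∈ Uall, ∃ θ, y θ = u := by
    intro u hu
    obtain ⟨θ, hθ⟩ := hyU (qU ⟨u, hu⟩)
    refine ⟨θ, ?_⟩
    rw [hθ, Equiv.symm_apply_apply]
  have hmz : ∀ z ∈ Z, ∃ m, z = algebraMap E K (ez z) * mo y m := fun z hz =>
    ((hrep z hz).mono (Finset.subset_biUnion_of_mem Uz (hZf.mem_toFinset.2 hz))).mo hy hyU' hyf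
  choose! mz hmz using hmz
  -- the base
  have hRW : R ≤ (V.comap (algebraMap E K)).toSubring := fun a ha => hRV a ha
  obtain ⟨Wb, fb, n0, x₀, hWbf, hfbR, hfb0, hWb, hx₀, hreg₀, hfbm, hHm⟩ :=
    base (V.comap (algebraMap E K)) R hRW hfr hLU (Hc ∪ ez '' Z)
      (hHcf.union (hZf.image _)) (by
        rintro h (hh | ⟨z, hz, rfl⟩)
        · exact hHc0 h hh
        · exact hez0 z hz)
  set C := Subring.closure ((R : Set E) ∪ Wb) with hC
  have hCW : C ≤ (V.comap (algebraMap E K)).toSubring := by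
    rw [hC, Subring.closure_le]
    rintro z (hz | hz)
    · exact hRW hz
    · exact (hWb z hz).1
  have hRC : R ≤ C := fun a ha => Subring.subset_closure (Or.inl ha)
  have hCE : ∀ a : E, ∃ b ∈ C, b ≠ 0 ∧ a * b ∈ C := by
    intro a
    obtain ⟨a', ha', b, hb, hb0, rfl⟩ := hfr a
    refine ⟨b, hRC hb, hb0, ?_⟩
    rw [mul_assoc, inv_mul_cancel₀ hb0, mul_one]
    exact hRC ha'
  -- the construction
  obtain ⟨T, κ, _, x, hTf, hTV, hTm, hreg, hPMalg, hPMy, hGV⟩ := main_cut hy hpV hreg₀ hCW hCE 𝒮 hOk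
    (hPM𝒮 _ x₀ hreg₀.ne fun h hh => hHm h (Or.inl hh)) hyfr htr'
    (G := (fun z => (ez z, mz z)) '' Z) (hZf.image _) (by
      rintro _ ⟨z, hz, rfl⟩
      exact hHm _ (Or.inr ⟨z, hz, rfl⟩))
  have hBeq : Subring.closure ((R.map (algebraMap E K) : Set K) ∪ (algebraMap E K '' Wb ∪ T)) =
      Subring.closure (C.map (algebraMap E K) ∪ T) := by
    apply le_antisymm
    · rw [Subring.closure_le]
      rintro z (⟨a, ha, rfl⟩ | ⟨w, hw, rfl⟩ | hz)
      · exact Subring.subset_closure (Or.inl ⟨a, hRC ha, rfl⟩)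
      · exact Subring.subset_closure (Or.inl ⟨w, Subring.subset_closure (Or.inr hw), rfl⟩)
      · exact Subring.subset_closure (Or.inr hz)
    · rw [Subring.closure_le]
      rintro z (⟨c', hc', rfl⟩ | hz)
      · have h1 : C ≤ (Subring.closure ((R.map (algebraMap E K) : Set K) ∪
            (algebraMap E K '' Wb ∪ T))).comap (algebraMap E K) := by
          rw [hC, Subring.closure_le]
          rintro c'' (h | h)
          · exact Subring.subset_closure (Or.inl ⟨c'', h, rfl⟩)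
          · exact Subring.subset_closure (Or.inr (Or.inl ⟨c'', h, rfl⟩))
        exact h1 hc'
      · exact Subring.subset_closure (Or.inr (Or.inr hz))
  refine ⟨algebraMap E K '' Wb ∪ T, (hWbf.image _).union hTf, ?_⟩
  rw [hBeq]
  set B := Subring.closure (C.map (algebraMap E K) ∪ T) with hB
  have hBV : B ≤ V.toSubring := by
    rw [hB, Subring.closure_le]
    rintro w (⟨c, hc, rfl⟩ | hw)
    · exact hCW hc
    · exact hTV w hw
  refine ⟨hBV, hreg.reg, ?_, ?_⟩
  · intro z hz hzV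
    have h1 := hGV (ez z, mz z) ⟨z, hz, rfl⟩
    simp only [← hmz z hz] at h1
    exact h1 hzV
  · -- the field of fractions
    let L : Subfield K := fr B
    have hBL : B ≤ L.toSubring := fun z hz =>
      ⟨1, B.one_mem, one_ne_zero, by rw [mul_one]; exact hz⟩
    have hEL : ∀ a : E, algebraMap E K a ∈ L := by
      intro a
      obtain ⟨b, hb, hb0, hab⟩ := hCE a
      have hbB : algebraMap E K b ∈ B := Subring.subset_closure (Or.inl ⟨b, hb, rfl⟩)
      refine ⟨algebraMap E K b, hbB, (map_ne_zero _).2 hb0, ?_⟩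
      rw [← map_mul]
      exact Subring.subset_closure (Or.inl ⟨_, hab, rfl⟩)
    have hPL : lo V.toSubring B ≤ L.toSubring := by
      rintro z ⟨a, ha, b, hb, hb0, -, rfl⟩
      exact L.mul_mem (hBL ha) (L.inv_mem (hBL hb))
    have hPMon : ∀ z, PMon (lo V.toSubring B) x z → z ∈ L := by
      rintro _ ⟨w, -, hw, -, δ, rfl⟩
      refine L.mul_mem (hPL hw) (L.prod_mem fun i _ => L.zpow_mem (hPL (hreg.mem i)) _)
    have hyL : ∀ θ, y θ ∈ L := fun θ => hPMon _ (hPMy θ)
    have hphL : ∀ a : MvPolynomial Θ E, ph (E := E) y a ∈ L := by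
      intro a
      induction a using MvPolynomial.induction_on with
      | C a =>
        have h1 : ph (E := E) y (MvPolynomial.C a) = algebraMap E K a :=
          MvPolynomial.aeval_C _ _
        rw [h1]
        exact hEL a
      | add a b ha hb => rw [map_add]; exact L.add_mem ha hb
      | mul_X a θ ha =>
        have h1 : ph (E := E) y (MvPolynomial.X θ) = y θ := MvPolynomial.aeval_X _ _
        rw [map_mul, h1]
        exact L.mul_mem ha (hyL θ)
    intro z
    obtain ⟨a, b, hb, h1⟩ := hyfr z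
    have h2 : z ∈ L := by
      have h3 : z = ph (E := E) y a * (ph (E := E) y b)⁻¹ := by
        rw [← h1, mul_inv_cancel_right₀ hb]
      rw [h3]
      exact L.mul_mem (hphL a) (L.inv_mem (hphL b))
    obtain ⟨b', hb', hb0', h3⟩ := h2
    exact ⟨z * b', h3, b', hb', hb0', by rw [mul_inv_cancel_right₀ hb0']⟩

end plain

end Pool.Agent.W418.LU2
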