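import Pool.Agent.W418.LU2.Stg
import Pool.Agent.W558.S2.QS

/-!
# The place of the function field of a torus
-/

set_option autoImplicit false
set_option linter.unusedVariables false
set_option linter.unusedSectionVars false

universe u v

namespace Pool.Agent.W418.LU2

open IsLocalRing Polynomial

section place

variable {R F K : Type u} [CommRing R] [IsDomain R] [Field F] [Algebra R F] [IsFractionRing R F]
  [Field K] (φ : R →+* K)

/-- The value of a fraction at the place. -/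
def Pr (z : F) (w : K) : Prop :=
  ∃ a b : R, φ b ≠ 0 ∧ z * algebraMap R F b = algebraMap R F a ∧ w * φ b = φ a

variable {φ}

lemma Pr.unique {z : F} {w w' : K} (h : Pr φ z w) (h' : Pr φ z w') : w = w' := by
  obtain ⟨a, b, hb, h1, h2⟩ := h
  obtain ⟨a', b', hb', h3, h4⟩ := h'
  have h5 : a * b' = a' * b := by
    apply IsFractionRing.injective R F
    rw [map_mul, map_mul, ← h1, ← h3]
    ring
  have h6 : w * φ b * φ b' = w' * φ b' * φ b := by
    rw [h2, h4, ← map_mul, ← map_mul, h5]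
  apply mul_right_cancel₀ (mul_ne_zero hb hb')
  linear_combination h6

lemma Pr.alg (a : R) : Pr φ (algebraMap R F a) (φ a) :=
  ⟨a, 1, by rw [map_one]; exact one_ne_zero, by rw [map_one, mul_one], by rw [map_one, mul_one]⟩

lemma Pr.zero : Pr φ (0 : F) 0 := by
  have := Pr.alg (F := F) (φ := φ) 0
  rwa [map_zero, map_zero] at this

lemma Pr.one : Pr φ (1 : F) 1 := by
  have := Pr.alg (F := F) (φ := φ) 1
  rwa [map_one, map_one] at this

lemma Pr.add {z z' : F} {w w' : K} (h : Pr φ z w) (h' : Pr φ z' w') : Pr φ (z + z') (w + w') := by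
  obtain ⟨a, b, hb, h1, h2⟩ := h
  obtain ⟨a', b', hb', h3, h4⟩ := h'
  refine ⟨a * b' + a' * b, b * b', by rw [map_mul]; exact mul_ne_zero hb hb', ?_, ?_⟩
  · rw [map_add, map_mul, map_mul, map_mul, ← h1, ← h3]; ring
  · rw [map_add, map_mul, map_mul, map_mul, ← h2, ← h4]; ring

lemma Pr.neg {z : F} {w : K} (h : Pr φ z w) : Pr φ (-z) (-w) := by
  obtain ⟨a, b, hb, h1, h2⟩ := h
  exact ⟨-a, b, hb, by rw [map_neg, ← h1]; ring, by rw [map_neg, ← h2]; ring⟩

lemma Pr.mul {z z' : F} {w w' : K} (h : Pr φ z w) (h' : Pr φ z' w') : Pr φ (z * z') (w * w') := by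
  obtain ⟨a, b, hb, h1, h2⟩ := h
  obtain ⟨a', b', hb', h3, h4⟩ := h'
  refine ⟨a * a', b * b', by rw [map_mul]; exact mul_ne_zero hb hb', ?_, ?_⟩
  · rw [map_mul, map_mul, ← h1, ← h3]; ring
  · rw [map_mul, map_mul, ← h2, ← h4]; ring

lemma Pr.inv {z : F} {w : K} (h : Pr φ z w) (hw : w ≠ 0) : Pr φ z⁻¹ w⁻¹ := by
  obtain ⟨a, b, hb, h1, h2⟩ := h
  have ha : φ a ≠ 0 := by
    rw [← h2]
    exact mul_ne_zero hw hb
  have hz : z ≠ 0 := by
    rintro rfl
    rw [zero_mul] at h1
    have h3 : a = 0 := IsFractionRing.injective R F (by rw [← h1, map_zero])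
    rw [h3, map_zero] at ha
    exact ha rfl
  refine ⟨b, a, ha, ?_, ?_⟩
  · rw [← h1, inv_mul_cancel_left₀ hz]
  · rw [← h2, inv_mul_cancel_left₀ hw]

lemma Pr.ne_zero {z : F} {w : K} (h : Pr φ z w) (hw : w ≠ 0) : z ≠ 0 := by
  rintro rfl
  exact hw (h.unique Pr.zero)

lemma Pr.pow {z : F} {w : K} (h : Pr φ z w) (n : ℕ) : Pr φ (z ^ n) (w ^ n) := by
  induction n with
  | zero => rw [pow_zero, pow_zero]; exact Pr.one
  | succ n ih => rw [pow_succ, pow_succ]; exact ih.mul h

lemma Pr.zpow {z : F} {w : K} (h : Pr φ z w) (hw : w ≠ 0) (n : ℤ) : Pr φ (z ^ n) (w ^ n) := by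
  rcases n with n | n
  · rw [Int.ofNat_eq_natCast, zpow_natCast, zpow_natCast]
    exact h.pow n
  · rw [zpow_negSucc, zpow_negSucc]
    exact (h.pow _).inv (pow_ne_zero _ hw)

lemma Pr.prod {ι : Type} (s : Finset ι) {z : ι → F} {w : ι → K} (h : ∀ i ∈ s, Pr φ (z i) (w i)) :
    Pr φ (∏ i ∈ s, z i) (∏ i ∈ s, w i) := by
  classical
  induction s using Finset.induction_on with
  | empty => simpa using Pr.one
  | insert a s ha ih =>
    rw [Finset.prod_insert ha, Finset.prod_insert ha]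
    exact (h a (Finset.mem_insert_self _ _)).mul (ih fun i hi => h i (Finset.mem_insert_of_mem hi))

lemma Pr.sum {ι : Type} (s : Finset ι) {z : ι → F} {w : ι → K} (h : ∀ i ∈ s, Pr φ (z i) (w i)) :
    Pr φ (∑ i ∈ s, z i) (∑ i ∈ s, w i) := by
  classical
  induction s using Finset.induction_on with
  | empty => simpa using Pr.zero
  | insert a s ha ih =>
    rw [Finset.sum_insert ha, Finset.sum_insert ha]
    exact (h a (Finset.mem_insert_self _ _)).add (ih fun i hi => h i (Finset.mem_insert_of_mem hi))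

lemma Pr.mo {ι : Type} [Fintype ι] {z : ι → F} {w : ι → K} (h : ∀ i, Pr φ (z i) (w i))
    (hw : ∀ i, w i ≠ 0) (m : ι → ℤ) : Pr φ (mo z m) (mo w m) :=
  Pr.prod _ fun i _ => (h i).zpow (hw i) _

variable (F φ) (V : ValuationSubring K)

/-- The fractions whose values are in the valuation ring. -/
def AA : Subring F where
  carrier := {z | ∃ w ∈ V, Pr φ z w}
  mul_mem' := by
    rintro z z' ⟨w, hw, h⟩ ⟨w', hw', h'⟩
    exact ⟨_, V.mul_mem _ _ hw hw', h.mul h'⟩
  one_mem' := ⟨1, V.one_mem, Pr.one⟩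
  add_mem' := by
    rintro z z' ⟨w, hw, h⟩ ⟨w', hw', h'⟩
    exact ⟨_, V.add_mem _ _ hw hw', h.add h'⟩
  zero_mem' := ⟨0, V.zero_mem, Pr.zero⟩
  neg_mem' := by
    rintro z ⟨w, hw, h⟩
    exact ⟨_, V.neg_mem _ hw, h.neg⟩

variable {F φ V}

lemma mem_AA {z : F} : z ∈ AA F φ V ↔ ∃ w ∈ V, Pr φ z w := Iff.rfl

lemma Pr.mem_AA {z : F} {w : K} (h : Pr φ z w) : z ∈ AA F φ V ↔ w ∈ V := by
  constructor
  · rintro ⟨w', hw', h'⟩
    rwa [h.unique h']
  · intro hw
    exact ⟨w, hw, h⟩

lemma loc_AA : Loc (AA F φ V) := by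
  rintro z ⟨w, hw, h⟩
  have key : ∀ (z : F) (w : K), w ∈ V → Pr φ z w → w ≠ 0 → w⁻¹ ∈ V →
      z ≠ 0 ∧ z⁻¹ ∈ AA F φ V := fun z w hw h h0 hi => ⟨h.ne_zero h0, _, hi, h.inv h0⟩
  by_cases h0 : w = 0
  · right
    refine key _ (1 - w) (V.sub_mem V.one_mem hw) ?_ ?_ ?_
    · rw [sub_eq_add_neg, sub_eq_add_neg]
      exact Pr.one.add h.neg
    · rw [h0, sub_zero]; exact one_ne_zero
    · rw [h0, sub_zero, inv_one]; exact V.one_mem
  · rcases V.mem_or_inv_mem w⁻¹ with h1 | h1
    · exact Or.inl (key z w hw h h0 h1)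
    · by_cases h2 : w⁻¹ ∈ V
      · exact Or.inl (key z w hw h h0 h2)
      · right
        have h3 : V.valuation w < 1 := by
          rw [inv_inv] at h1
          refine lt_of_le_of_ne ((V.valuation_le_one_iff _).2 hw) fun h4 => h2 ?_
          rw [← V.valuation_le_one_iff, map_inv₀, h4, inv_one]
        have h4 : V.valuation (1 - w) = 1 := by
          rw [sub_eq_add_neg]
          have : V.valuation (-w) < V.valuation 1 := by rwa [Valuation.map_neg, map_one]
          rw [Valuation.map_add_eq_of_lt_left _ this, map_one]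
        refine key _ (1 - w) (V.sub_mem V.one_mem hw) ?_ ?_ ?_
        · rw [sub_eq_add_neg, sub_eq_add_neg]
          exact Pr.one.add h.neg
        · intro h5
          rw [h5, map_zero] at h4
          exact zero_ne_one h4
        · rw [← V.valuation_le_one_iff, map_inv₀, h4, inv_one]

lemma mo_AA {N : Submonoid F} (hinv : ∀ n ∈ N, n⁻¹ ∈ N) (hN : ∀ n ∈ N, ∃ w, w ≠ 0 ∧ Pr φ n w) :
    Mo (AA F φ V) N where
  ne := by
    intro n hn
    obtain ⟨w, hw, h⟩ := hN n hn
    exact h.ne_zero hw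
  inv := hinv
  cmp := by
    intro n hn
    obtain ⟨w, hw, h⟩ := hN n hn
    rcases V.mem_or_inv_mem w with h1 | h1
    · exact Or.inl ⟨w, h1, h⟩
    · exact Or.inr ⟨w⁻¹, h1, h.inv hw⟩

/-- The reduction. -/
noncomputable def prA : AA F φ V →+* K where
  toFun z := z.2.choose
  map_one' := (Subtype.prop (1 : AA F φ V)).choose_spec.2.unique Pr.one
  map_mul' a b := (Subtype.prop (a * b)).choose_spec.2.unique
    (a.2.choose_spec.2.mul b.2.choose_spec.2)
  map_zero' := (Subtype.prop (0 : AA F φ V)).choose_spec.2.unique Pr.zero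
  map_add' a b := (Subtype.prop (a + b)).choose_spec.2.unique
    (a.2.choose_spec.2.add b.2.choose_spec.2)

lemma prA_spec (z : AA F φ V) : Pr φ (z : F) (prA z) := z.2.choose_spec.2

lemma prA_mem (z : AA F φ V) : prA z ∈ V := z.2.choose_spec.1

lemma prA_eq (z : AA F φ V) {w : K} (h : Pr φ (z : F) w) : prA z = w := (prA_spec z).unique h

end place

section trans

variable {F : Type u} [Field F]

/-- Transcendence over fractions. -/
theorem trans_of {k : Type u} [Field k] [Algebra k F] (L : Subalgebra k F) (P : Subring F)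
    (hP : ∀ z ∈ P, ∃ b ∈ L, b ≠ 0 ∧ z * b ∈ L) {t : F} (ht : Transcendental L t) (g : P[X])
    (hg : eval₂ P.subtype t g = 0) : g = 0 := by
  have h1 : ∀ g : P[X], ∃ b : L, b ≠ 0 ∧ ∃ h : L[X],
      h.map (algebraMap L F) = C (b : F) * g.map P.subtype := by
    intro g
    induction g using Polynomial.induction_on' with
    | add p q hp hq =>
      obtain ⟨b, hb, h, hh⟩ := hp
      obtain ⟨b', hb', h', hh'⟩ := hq
      refine ⟨b * b', mul_ne_zero hb hb', C b' * h + C b * h', ?_⟩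
      rw [Polynomial.map_add, Polynomial.map_mul, Polynomial.map_mul, map_C, map_C, hh, hh',
        Polynomial.map_add]
      have h3 : ((b * b' : L) : F) = b * b' := rfl
      rw [h3, C_mul]
      change C (b' : F) * _ + C (b : F) * _ = _
      ring
    | monomial n a =>
      obtain ⟨b, hb, hb0, hab⟩ := hP a a.2
      refine ⟨⟨b, hb⟩, fun h => hb0 (congrArg Subtype.val h), monomial n ⟨a * b, hab⟩, ?_⟩
      rw [map_monomial, map_monomial, C_mul_monomial]
      congr 1
      exact mul_comm _ _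
  obtain ⟨b, hb, h, hh⟩ := h1 g
  have hb0 : (b : F) ≠ 0 := fun h => hb (Subtype.ext h)
  have h2 : aeval t h = 0 := by
    rw [aeval_def, ← eval_map, hh, eval_mul, eval_map, hg, mul_zero]
  have h3 : h = 0 := by
    by_contra hne
    exact ht ⟨h, hne, h2⟩
  rw [h3, Polynomial.map_zero, eq_comm, mul_eq_zero] at hh
  rcases hh with hh | hh
  · exact absurd (C_eq_zero.1 hh) hb0
  · exact (Polynomial.map_eq_zero_iff Subtype.val_injective).1 hh

end trans

end Pool.Agent.W418.LU2
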