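import Pool.Agent.W418.LU2.Tor

/-!
# Stages in the function field of a torus
-/

set_option autoImplicit false
set_option linter.unusedVariables false
set_option linter.unusedSectionVars false

universe u v

namespace Pool.Agent.W418.LU2

open IsLocalRing

section map

lemma IndN.equiv {B C' : Type u} [CommRing B] [IsLocalRing B] [CommRing C'] [IsLocalRing C']
    (e : B ≃+* C') {ι : Type} [Fintype ι] {z : ι → B} (h : IndN z) :
    IndN (fun i => e (z i)) := by
  have hm : ∀ b : C', b ∈ maximalIdeal C' ↔ e.symm b ∈ maximalIdeal B := by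
    intro b
    rw [mem_maximalIdeal, mem_maximalIdeal, mem_nonunits_iff, mem_nonunits_iff,
      MulEquiv.isUnit_map e.symm]
  intro c hc hs i
  rw [hm]
  refine h (fun i => e.symm (c i)) ?_ ?_ i
  · intro i hi
    rw [hc i (fun h => hi ?_), map_zero]
    rw [hm, RingEquiv.symm_apply_apply] at h
    exact h
  · have h1 : e.symm (∑ i, c i * e (z i)) ∈ (maximalIdeal C' ^ 2).map e.symm.toRingHom :=
      Ideal.mem_map_of_mem e.symm.toRingHom hs
    rw [map_sum] at h1
    simp only [map_mul, RingEquiv.symm_apply_apply] at h1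
    rw [Ideal.map_pow] at h1
    refine Ideal.pow_right_mono ?_ 2 h1
    rw [Ideal.map_le_iff_le_comap]
    intro b hb
    exact (hm b).1 hb

variable {E F : Type u} [Field E] [Field F] (f : E →+* F) {A' : Subring E} {A : Subring F}
  (hAA : ∀ e, f e ∈ A ↔ e ∈ A')

include hAA

lemma lo_map (C : Subring E) : lo A (C.map f) = (lo A' C).map f := by
  ext z
  constructor
  · rintro ⟨_, ⟨a, ha, rfl⟩, _, ⟨b, hb, rfl⟩, hb0, hbA, rfl⟩
    refine ⟨a * b⁻¹, ⟨a, ha, b, hb, ?_, ?_, rfl⟩, ?_⟩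
    · rintro rfl
      exact hb0 (map_zero f)
    · rw [← hAA, map_inv₀]
      exact hbA
    · rw [map_mul, map_inv₀]
  · rintro ⟨_, ⟨a, ha, b, hb, hb0, hbA, rfl⟩, rfl⟩
    refine ⟨f a, ⟨a, ha, rfl⟩, f b, ⟨b, hb, rfl⟩, (map_ne_zero f).2 hb0, ?_, ?_⟩
    · rw [← map_inv₀, hAA]
      exact hbA
    · rw [map_mul, map_inv₀]

theorem RegP.map {C : Subring E} {ι : Type} [Fintype ι] {x : ι → E}
    (h : RegP A' (lo A' C) x) : RegP A (lo A (C.map f)) (fun i => f (x i)) := by
  rw [lo_map f hAA]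
  have hreg := h.reg
  let q := (lo A' C).equivMapOfInjective f f.injective
  have hreg' : IsRegularLocalRing ((lo A' C).map f) := IsRegularLocalRing.of_ringEquiv q
  refine ⟨?_, fun i => (map_ne_zero f).2 (h.ne i), fun i => ⟨x i, h.mem i, rfl⟩, hreg', ?_, ?_⟩
  · rintro _ ⟨a, ha, rfl⟩
    exact (hAA a).2 (h.PA ha)
  · rintro _ ⟨a, ha, rfl⟩ h0 h1
    rw [← map_inv₀] at h1 ⊢
    exact ⟨a⁻¹, h.inv a ha (fun h2 => h0 (by rw [h2, map_zero])) ((hAA _).1 h1), rfl⟩
  · exact h.ind.equiv q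

end map

section torus

variable {E K : Type u} [Field E] [Field K] [Algebra E K] {Θ : Type} [Fintype Θ] (y : Θ → K)

/-- The function field of the torus. -/
abbrev FF (E : Type u) [Field E] (Θ : Type) : Type u := FractionRing (MvPolynomial Θ E)

/-- The evaluation. -/
noncomputable def ph : MvPolynomial Θ E →+* K :=
  (MvPolynomial.aeval y : MvPolynomial Θ E →ₐ[E] K).toRingHom

/-- The constants. -/
noncomputable def emb (E : Type u) [Field E] (Θ : Type) : E →+* FF E Θ :=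
  (algebraMap (MvPolynomial Θ E) (FF E Θ)).comp MvPolynomial.C

/-- The coordinates. -/
noncomputable def Zc (E : Type u) [Field E] {Θ : Type} (θ : Θ) : FF E Θ :=
  algebraMap (MvPolynomial Θ E) (FF E Θ) (MvPolynomial.X θ)

lemma Pr_Z (θ : Θ) : Pr (ph (E := E) y) (Zc E θ) (y θ) := by
  have h := Pr.alg (F := FF E Θ) (φ := ph (E := E) y) (MvPolynomial.X θ)
  have h1 : ph (E := E) y (MvPolynomial.X θ) = y θ := MvPolynomial.aeval_X _ _
  rwa [h1] at h

lemma Pr_emb (e : E) : Pr (ph (E := E) y) (emb E Θ e) (algebraMap E K e) := by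
  have h := Pr.alg (F := FF E Θ) (φ := ph (E := E) y) (MvPolynomial.C e)
  have h1 : ph (E := E) y (MvPolynomial.C e) = algebraMap E K e := MvPolynomial.aeval_C _ _
  rwa [h1] at h

lemma Zc_ne (θ : Θ) : Zc E θ ≠ 0 := by
  unfold Zc
  rw [Ne, map_eq_zero_iff _ (IsFractionRing.injective (MvPolynomial Θ E) (FF E Θ))]
  exact MvPolynomial.X_ne_zero θ

lemma emb_alg (e : E) : emb E Θ e = algebraMap E (FF E Θ) e :=
  (IsScalarTower.algebraMap_apply E (MvPolynomial Θ E) (FF E Θ) e).symm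

/-- The monomials. -/
def NN {F : Type u} [Field F] {ι₀ : Type} [Fintype ι₀] (x₀ : ι₀ → F) (z : Θ → F)
    (hx₀ : ∀ i, x₀ i ≠ 0) (hz : ∀ i, z i ≠ 0) : Submonoid F where
  carrier := {n | ∃ γ m, n = mo x₀ γ * mo z m}
  mul_mem' := by
    rintro _ _ ⟨γ, m, rfl⟩ ⟨γ', m', rfl⟩
    exact ⟨γ + γ', m + m', by rw [mo_add hx₀, mo_add hz]; ring⟩
  one_mem' := ⟨0, 0, by rw [mo_zero, mo_zero, one_mul]⟩

lemma NN_inv {F : Type u} [Field F] {ι₀ : Type} [Fintype ι₀] {x₀ : ι₀ → F} {z : Θ → F}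
    {hx₀ : ∀ i, x₀ i ≠ 0} {hz : ∀ i, z i ≠ 0} (n : F) (hn : n ∈ NN x₀ z hx₀ hz) :
    n⁻¹ ∈ NN x₀ z hx₀ hz := by
  obtain ⟨γ, m, rfl⟩ := hn
  exact ⟨-γ, -m, by rw [mo_neg, mo_neg, mul_inv]⟩

/-- The monomials of the torus. -/
noncomputable abbrev NT {ι₀ : Type} [Fintype ι₀] {x₀ : ι₀ → E} (hx₀ : ∀ i, x₀ i ≠ 0) :
    Submonoid (FF E Θ) :=
  NN (fun i => emb E Θ (x₀ i)) (Zc E) (fun i => (map_ne_zero _).2 (hx₀ i)) Zc_ne

/-- The local ring of the torus. -/
noncomputable abbrev AT (E : Type u) {K : Type u} [Field E] [Field K] [Algebra E K] {Θ : Type}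
    (y : Θ → K) (V : ValuationSubring K) : Subring (FF E Θ) :=
  AA (FF E Θ) (ph (E := E) y) V

variable {y} (hy : ∀ θ, y θ ≠ 0) (V : ValuationSubring K)

include hy

lemma mo_NN {ι₀ : Type} [Fintype ι₀] {x₀ : ι₀ → E} (hx₀ : ∀ i, x₀ i ≠ 0) :
    Mo (AT E y V) (NT (Θ := Θ) hx₀) := by
  refine mo_AA (fun n hn => NN_inv n hn) ?_
  rintro _ ⟨γ, m, rfl⟩
  refine ⟨mo (fun i => algebraMap E K (x₀ i)) γ * mo y m, mul_ne_zero
    (mo_ne_zero (fun i => (map_ne_zero _).2 (hx₀ i)) _) (mo_ne_zero hy _), ?_⟩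
  exact (Pr.mo (fun i => Pr_emb y _) (fun i => (map_ne_zero _).2 (hx₀ i)) γ).mul
    (Pr.mo (fun i => Pr_Z y i) hy m)

omit hy in
/-- The fractions of elements of a subring. -/
def fr {F : Type u} [Field F] (L : Subring F) : Subfield F where
  carrier := {z | ∃ b ∈ L, b ≠ 0 ∧ z * b ∈ L}
  mul_mem' := by
    rintro z z' ⟨b, hb, hb0, h⟩ ⟨b', hb', hb0', h'⟩
    refine ⟨b * b', L.mul_mem hb hb', mul_ne_zero hb0 hb0', ?_⟩
    rw [mul_mul_mul_comm]
    exact L.mul_mem h h'
  one_mem' := ⟨1, L.one_mem, one_ne_zero, by rw [mul_one]; exact L.one_mem⟩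
  add_mem' := by
    rintro z z' ⟨b, hb, hb0, h⟩ ⟨b', hb', hb0', h'⟩
    refine ⟨b * b', L.mul_mem hb hb', mul_ne_zero hb0 hb0', ?_⟩
    have : (z + z') * (b * b') = z * b * b' + z' * b' * b := by ring
    rw [this]
    exact L.add_mem (L.mul_mem h hb') (L.mul_mem h' hb)
  zero_mem' := ⟨1, L.one_mem, one_ne_zero, by rw [zero_mul]; exact L.zero_mem⟩
  neg_mem' := by
    rintro z ⟨b, hb, hb0, h⟩
    exact ⟨b, hb, hb0, by rw [neg_mul]; exact L.neg_mem h⟩
  inv_mem' := by
    rintro z ⟨b, hb, hb0, h⟩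
    by_cases hz : z = 0
    · rw [hz, inv_zero]
      exact ⟨1, L.one_mem, one_ne_zero, by rw [zero_mul]; exact L.zero_mem⟩
    · refine ⟨z * b, h, mul_ne_zero hz hb0, ?_⟩
      rw [inv_mul_cancel_left₀ hz]
      exact hb

omit hy in
lemma le_fr {F : Type u} [Field F] (L : Subring F) {z : F} (hz : z ∈ L) : z ∈ fr L :=
  ⟨1, L.one_mem, one_ne_zero, by rwa [mul_one]⟩

omit hy in
lemma lo_fr {F : Type u} [Field F] {A L : Subring F} {U : Set F} (hU : ∀ u ∈ U, u ∈ fr L)
    {z : F} (hz : z ∈ lo A (Subring.closure U)) : z ∈ fr L := by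
  have h1 : Subring.closure U ≤ (fr L).toSubring := by
    rw [Subring.closure_le]
    exact hU
  obtain ⟨a, ha, b, hb, hb0, hbA, rfl⟩ := hz
  exact (fr L).mul_mem (h1 ha) ((fr L).inv_mem (h1 hb))

omit hy in
lemma indep_Z : AlgebraicIndependent E (Zc E : Θ → FF E Θ) := by
  have h := (MvPolynomial.algebraicIndependent_X Θ E).map'
    (f := IsScalarTower.toAlgHom E (MvPolynomial Θ E) (FF E Θ))
    (IsFractionRing.injective (MvPolynomial Θ E) (FF E Θ))
  exact h

/-- Adjoining the coordinates of the torus. -/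
theorem torus_stage {ι₀ : Type} [Fintype ι₀] {x₀ : ι₀ → E} (hx₀ : ∀ i, x₀ i ≠ 0) {S0 : Subring E}
    (h0 : Stg (AT E y V) (S0.map (emb E Θ)) (NT (Θ := Θ) hx₀) ∅ (fun i => emb E Θ (x₀ i))) (s : Finset Θ) :
    ∃ (ι : Type) (_ : Fintype ι) (T : Set (FF E Θ)) (x : ι → FF E Θ),
      Stg (AT E y V) (S0.map (emb E Θ)) (NT (Θ := Θ) hx₀) T x ∧
      Ref (fun i => emb E Θ (x₀ i)) x ∧ (∀ t ∈ T, ∃ θ ∈ s, t = Zc E θ ∨ t = (Zc E θ)⁻¹) ∧
      ∀ θ ∈ s, PMon (lo (AT E y V) (Subring.closure (S0.map (emb E Θ) ∪ T))) x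
        (Zc E θ) := by
  classical
  have hS0 : S0.map (emb E Θ) ≤ AT E y V := by
    intro z hz
    exact h0.reg.PA (le_lo _ _ (Subring.subset_closure (Or.inl hz)))
  have hN := mo_NN (E := E) hy V hx₀
  induction s using Finset.induction_on with
  | empty =>
    refine ⟨ι₀, inferInstance, ∅, _, h0, Ref.refl _, ?_, ?_⟩
    · intro t ht
      exact ht.elim
    · intro θ hθ
      exact absurd hθ (Finset.notMem_empty _)
  | insert a s ha ih =>
    obtain ⟨ι, _, T, x, h1, h2, h3, h4⟩ := ih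
    obtain ⟨t, ht, htA⟩ : ∃ t, (t = Zc E a ∨ t = (Zc E a)⁻¹) ∧ t ∈ AT E y V := by
      rcases hN.cmp (Zc E a) ⟨0, Pi.single a 1, by rw [mo_zero, one_mul, mo_single]⟩ with h | h
      · exact ⟨_, Or.inl rfl, h⟩
      · exact ⟨_, Or.inr rfl, h⟩
    have ht0 : t ≠ 0 := by
      rcases ht with rfl | rfl
      · exact Zc_ne a
      · exact inv_ne_zero (Zc_ne a)
    have htN : t ∈ NT (Θ := Θ) hx₀ := by
      have h5 : Zc E a ∈ NT (Θ := Θ) hx₀ :=
        ⟨0, Pi.single a 1, by rw [mo_zero, one_mul, mo_single]⟩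
      rcases ht with rfl | rfl
      · exact h5
      · exact NN_inv _ h5
    let L : Subalgebra E (FF E Θ) := Algebra.adjoin E (Zc E '' (s : Set Θ))
    have htr : Transcendental L t := by
      have h5 : Transcendental L (Zc E a) :=
        indep_Z.transcendental_adjoin (s := (s : Set Θ)) (i := a) (by simpa using ha)
      rcases ht with rfl | rfl
      · exact h5
      · intro h6
        exact h5 (IsAlgebraic.inv_iff.1 h6)
    have h5 := h1.trans (loc_AA) hS0 htN htA ht0 (trans_of L _ (fun z hz => by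
      refine lo_fr (L := L.toSubring) ?_ hz
      rintro u (⟨e, he, rfl⟩ | hu)
      · apply le_fr
        change emb E Θ e ∈ L
        rw [emb_alg]
        exact L.algebraMap_mem e
      · obtain ⟨θ, hθ, h6⟩ := h3 u hu
        have h7 : Zc E θ ∈ fr L.toSubring :=
          le_fr _ (Algebra.subset_adjoin ⟨θ, hθ, rfl⟩)
        rcases h6 with rfl | rfl
        · exact h7
        · exact (fr L.toSubring).inv_mem h7) htr)
    have hRef : Ref x (Sum.elim x fun _ : Unit => t) := by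
      intro γ hγ
      refine ⟨Sum.elim γ 0, ?_, ?_⟩
      · rintro (l | l)
        · exact hγ l
        · exact le_rfl
      · unfold mo
        rw [Fintype.prod_sum_type]
        simp
    have hle : lo (AT E y V) (Subring.closure (S0.map (emb E Θ) ∪ T)) ≤
        lo (AT E y V) (Subring.closure (S0.map (emb E Θ) ∪ insert t T)) :=
      lo_mono (Subring.closure_mono (Set.union_subset_union_right _ (Set.subset_insert _ _)))
    refine ⟨_, inferInstance, insert t T, _, h5, h2.trans hRef, ?_, ?_⟩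
    · rintro u (rfl | hu)
      · exact ⟨a, Finset.mem_insert_self _ _, ht⟩
      · obtain ⟨θ, hθ, h6⟩ := h3 u hu
        exact ⟨θ, Finset.mem_insert_of_mem hθ, h6⟩
    · intro θ hθ
      rcases Finset.mem_insert.1 hθ with rfl | hθ
      · have h6 : PMon (lo (AT E y V)
            (Subring.closure (S0.map (emb E Θ) ∪ insert t T))) (Sum.elim x fun _ : Unit => t) t := by
          refine ⟨1, one_ne_zero, Subring.one_mem _, by rw [inv_one]; exact Subring.one_mem _,
            Pi.single (Sum.inr ()) 1, ?_⟩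
          rw [one_mul, mo_single]
          rfl
        rcases ht with h7 | h7
        · rw [← h7]; exact h6
        · have h8 := h6.inv
          rw [h7, inv_inv] at h8
          rw [← h7] at h8
          exact h8
      · exact (h4 θ hθ).ref h1.reg.ne h5.reg.ne hle hRef

end torus

end Pool.Agent.W418.LU2
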